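import Mathlib

set_option autoImplicit false
open Filter Topology

namespace Pool.Agent.H915.Ren

open Finset in
lemma fd_eq (m n : ℕ) (X c : ℝ) (h : n ≤ m) :
    ∑ j ∈ range (m+1), (((-1 : ℤ) ^ (m - j) * m.choose j : ℤ) : ℝ) * (X + (j:ℝ) * c) ^ n
      = if n = m then (m.factorial : ℝ) * c ^ m else 0 := by
  have h1 := fwdDiff_iter_eq_sum_shift (M := ℝ) (G := ℝ) 1 (fun u => (X + u * c)^n) m 0
  have h2 : (fun u : ℝ => (X + u * c)^n) = ∑ i ∈ range (n+1), (c^i * X^(n-i) * (n.choose i : ℝ)) • (fun u : ℝ => u^i) := by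
    funext u
    rw [add_comm X, add_pow, Finset.sum_apply]
    apply Finset.sum_congr rfl
    intro i _
    simp only [Pi.smul_apply, smul_eq_mul]
    ring
  have h3 : (∑ j ∈ range (m+1), (((-1 : ℤ) ^ (m - j) * m.choose j : ℤ) : ℝ) * (X + (j:ℝ) * c) ^ n) = (fwdDiff (1:ℝ))^[m] (fun u => (X + u * c)^n) 0 := by
    rw [h1]
    apply Finset.sum_congr rfl
    intro j _
    simp
  rw [h3, h2, fwdDiff_iter_finsetSum, Finset.sum_apply]
  simp_rw [fwdDiff_iter_const_smul]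
  rw [Finset.sum_range_succ, Finset.sum_eq_zero, zero_add]
  · split_ifs with hnm
    · subst hnm
      rw [fwdDiff_iter_eq_factorial]
      simp [mul_comm]
    · rw [fwdDiff_iter_pow_eq_zero_of_lt (lt_of_le_of_ne h hnm)]
      simp
  · intro i hi
    rw [fwdDiff_iter_pow_eq_zero_of_lt (lt_of_lt_of_le (mem_range.mp hi) h)]
    simp

/-- the coefficients -/
noncomputable def a : ℕ → ℝ
  | 0 => 1/8
  | (k+1) => a k / ((2*(k:ℝ)+4) * 2^(2*k+4) * (2*(k:ℝ)+1)^(2*(2*k+1)))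

lemma a_pos (k : ℕ) : 0 < a k := by
  induction k with
  | zero => norm_num [a]
  | succ k ih => rw [a]; positivity

/-- derivative coefficients -/
noncomputable def be (k : ℕ) : ℝ := a k * (2*(k:ℝ)+2) * 2^(2*k+2)

lemma be_pos (k : ℕ) : 0 < be k := by
  have := a_pos k
  unfold be; positivity

lemma be_succ (k : ℕ) : be (k+1) = a k / (2*(k:ℝ)+1)^(2*(2*k+1)) := by
  unfold be
  rw [a]
  push_cast
  have h : (2:ℝ)^(2*(k+1)+2) = 2^(2*k+4) := by congr 1
  rw [h]
  field_simp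
  ring

lemma a_succ_le (k : ℕ) : a (k+1) ≤ a k / 2 := by
  rw [a]
  have := a_pos k
  apply div_le_div_of_nonneg_left this.le (by norm_num)
  have h1 : (1:ℝ) ≤ 2^(2*k+4) := one_le_pow₀ (by norm_num)
  have h2 : (1:ℝ) ≤ (2*(k:ℝ)+1)^(2*(2*k+1)) := one_le_pow₀ (by linarith [Nat.cast_nonneg (α := ℝ) k])
  have h3 : (2:ℝ) ≤ 2*(k:ℝ)+4 := by linarith [Nat.cast_nonneg (α := ℝ) k]
  calc (2:ℝ) = 2 * 1 * 1 := by norm_num
    _ ≤ (2*(k:ℝ)+4) * 2^(2*k+4) * (2*(k:ℝ)+1)^(2*(2*k+1)) := by gcongr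

lemma a_add_le (i j : ℕ) : a (i+j) ≤ a i * (1/2)^j := by
  induction j with
  | zero => simp
  | succ j ih =>
    have := a_succ_le (i+j)
    rw [← add_assoc, pow_succ]
    calc a (i+j+1) ≤ a (i+j) / 2 := this
      _ ≤ (a i * (1/2)^j)/2 := by gcongr
      _ = a i * ((1/2)^j * (1/2)) := by ring

lemma be_tail (i j : ℕ) : be (i+1+j) ≤ a i * ((2*(i:ℝ)+1)^(2*(2*i+1)))⁻¹ * (1/2)^j := by
  have h : i + 1 + j = (i+j)+1 := by ring
  rw [h, be_succ]
  have h1 := a_add_le i j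
  have h2 : (2*(i:ℝ)+1)^(2*(2*i+1)) ≤ (2*((i+j:ℕ):ℝ)+1)^(2*(2*(i+j)+1)) := by
    have e1 : (2*(i:ℝ)+1) ≤ (2*((i+j:ℕ):ℝ)+1) := by push_cast; linarith [Nat.cast_nonneg (α := ℝ) j]
    have e2 : (1:ℝ) ≤ (2*((i+j:ℕ):ℝ)+1) := by linarith [Nat.cast_nonneg (α := ℝ) (i+j)]
    calc (2*(i:ℝ)+1)^(2*(2*i+1)) ≤ (2*((i+j:ℕ):ℝ)+1)^(2*(2*i+1)) := by gcongr
      _ ≤ (2*((i+j:ℕ):ℝ)+1)^(2*(2*(i+j)+1)) := pow_le_pow_right₀ e2 (by omega)
  have hp : 0 < (2*(i:ℝ)+1)^(2*(2*i+1)) := by positivity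
  have ha := a_pos i
  rw [div_eq_mul_inv]
  calc a (i+j) * ((2*((i+j:ℕ):ℝ)+1)^(2*(2*(i+j)+1)))⁻¹ ≤ (a i * (1/2)^j) * ((2*(i:ℝ)+1)^(2*(2*i+1)))⁻¹ := by gcongr
    _ = _ := by ring

lemma be_summable : Summable be := by
  rw [← summable_nat_add_iff 1]
  apply Summable.of_nonneg_of_le (fun k => (be_pos _).le) (f := fun j => a 0 * ((2*((0:ℕ):ℝ)+1)^(2*(2*0+1)))⁻¹ * (1/2)^j)
  · intro j
    have := be_tail 0 j
    rw [zero_add, add_comm] at this
    exact this
  · exact (summable_geometric_of_lt_one (by norm_num) (by norm_num)).mul_left _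

lemma be_tsum_le : ∑' k, be k ≤ 2 := by
  rw [be_summable.tsum_eq_zero_add]
  have h0 : be 0 = 1 := by norm_num [be, a]
  rw [h0]
  have h1 : ∑' k, be (k+1) ≤ ∑' j : ℕ, (1/8:ℝ) * (1/2)^j := by
    apply Summable.tsum_le_tsum _ ((summable_nat_add_iff 1).mpr be_summable)
    · exact (summable_geometric_of_lt_one (by norm_num) (by norm_num)).mul_left _
    · intro j
      have := be_tail 0 j
      rw [zero_add, add_comm] at this
      refine this.trans ?_
      norm_num [a]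
  rw [tsum_mul_left, tsum_geometric_two] at h1
  linarith

lemma be_tail_tsum (i : ℕ) : ∑' j, be (i+1+j) ≤ 2 * a i * ((2*(i:ℝ)+1)^(2*(2*i+1)))⁻¹ := by
  have hs : Summable (fun j => be (i+1+j)) := by
    have := (summable_nat_add_iff (i+1)).mpr be_summable
    simpa [add_comm] using this
  calc ∑' j, be (i+1+j) ≤ ∑' j : ℕ, a i * ((2*(i:ℝ)+1)^(2*(2*i+1)))⁻¹ * (1/2)^j :=
        hs.tsum_le_tsum (be_tail i) ((summable_geometric_of_lt_one (by norm_num) (by norm_num)).mul_left _)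
    _ = _ := by rw [tsum_mul_left, tsum_geometric_two]; ring

/-- G t = 0 -/
lemma G_zero (X Z : ℕ → ℝ) (hX : ∀ k, |X k| ≤ 3/2) (hZ : ∀ k, |Z k| ≤ 1) (δ : ℝ) (hδ : 0 < δ)
    (H : ∀ e : ℝ, |e| ≤ δ → ∑' k, a k * (X k)^(2*k+2) ≤ ∑' k, a k * (X k + e * Z k)^(2*k+2)) :
    ∑' k, a k * ((2*(k:ℝ)+2) * (X k)^(2*k+1) * Z k) = 0 := by
  have hderiv : HasDerivAt (fun e : ℝ => ∑' k, a k * (X k + e * Z k)^(2*k+2))
      (∑' k, a k * ((2*(k:ℝ)+2) * (X k + 0 * Z k)^(2*k+1) * Z k)) 0 := by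
    apply hasDerivAt_tsum_of_isPreconnected (u := be) (t := Metric.ball (0:ℝ) (1/2)) (y₀ := 0)
      (g := fun k (e:ℝ) => a k * (X k + e * Z k)^(2*k+2))
      (g' := fun k (e:ℝ) => a k * ((2*(k:ℝ)+2) * (X k + e * Z k)^(2*k+1) * Z k))
    · exact be_summable
    · exact Metric.isOpen_ball
    · exact (convex_ball _ _).isPreconnected
    · intro k e _
      have h1 : HasDerivAt (fun e : ℝ => X k + e * Z k) (Z k) e := by
        simpa using ((hasDerivAt_id e).mul_const (Z k)).const_add (X k)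
      have h2 : HasDerivAt (fun e : ℝ => a k * (X k + e * Z k)^(2*k+2))
          (a k * (((2*k+2:ℕ):ℝ) * (X k + e * Z k)^(2*k+2-1) * Z k)) e := (h1.pow (2*k+2)).const_mul (a k)
      have h3 : a k * (((2*k+2:ℕ):ℝ) * (X k + e * Z k)^(2*k+2-1) * Z k)
          = a k * ((2*(k:ℝ)+2) * (X k + e * Z k)^(2*k+1) * Z k) := by
        push_cast
        rfl
      rw [h3] at h2
      exact h2
    · intro k e he
      have he' : |e| < 1/2 := by simpa using he
      have h1 : |X k + e * Z k| ≤ 2 := by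
        calc |X k + e * Z k| ≤ |X k| + |e * Z k| := abs_add_le _ _
          _ ≤ 3/2 + 1/2 * 1 := by
            rw [abs_mul]
            have := hX k
            have := hZ k
            gcongr
          _ = 2 := by norm_num
      have ha := a_pos k
      rw [Real.norm_eq_abs, abs_mul, abs_mul, abs_mul, abs_pow, abs_of_pos ha, abs_of_pos (by positivity : (0:ℝ) < 2*(k:ℝ)+2)]
      unfold be
      calc a k * ((2*(k:ℝ)+2) * |X k + e * Z k|^(2*k+1) * |Z k|) ≤ a k * ((2*(k:ℝ)+2) * 2^(2*k+1) * 1) := by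
            gcongr
            exact hZ k
        _ ≤ a k * (2*(k:ℝ)+2) * 2^(2*k+2) := by
            rw [pow_succ (2:ℝ) (2*k+1), mul_one, mul_assoc]
            gcongr
            have : (0:ℝ) < 2^(2*k+1) := by positivity
            linarith
    · simp
    · simp only [zero_mul, add_zero]
      apply Summable.of_norm_bounded be_summable
      intro k
      have ha := a_pos k
      have h1 := hX k
      rw [Real.norm_eq_abs, abs_mul, abs_pow, abs_of_pos ha]
      unfold be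
      calc a k * |X k|^(2*k+2) ≤ a k * 2^(2*k+2) := by gcongr; linarith
        _ ≤ a k * (2*(k:ℝ)+2) * 2^(2*k+2) := by
            gcongr
            have : (0:ℝ) ≤ k := Nat.cast_nonneg k
            nlinarith
    · simp
  have hmin : IsLocalMin (fun e : ℝ => ∑' k, a k * (X k + e * Z k)^(2*k+2)) 0 := by
    rw [IsLocalMin, IsMinFilter]
    filter_upwards [Metric.ball_mem_nhds (0:ℝ) hδ] with e he
    have he' : |e| < δ := by simpa using he
    simp only [zero_mul, add_zero]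
    exact H e he'.le
  have := hmin.hasDerivAt_eq_zero hderiv
  simpa using this

open Finset in
/-- main analytic estimate -/
lemma main_est (X Y Z : ℕ → ℝ) (hX : ∀ k, |X k| ≤ 1) (hY : ∀ k, |Y k| ≤ 1) (hZ : ∀ k, |Z k| ≤ 1)
    (H : ∀ t e : ℝ, |t| ≤ 1/16 → |e| ≤ 1/16 →
      ∑' k, a k * (X k + t * Y k)^(2*k+2) ≤ ∑' k, a k * (X k + t * Y k + e * Z k)^(2*k+2))
    (i : ℕ) : |Z i| * |Y i|^(2*i+1) ≤ (32/(2*(i:ℝ)+1))^(2*i+1) := by
  set m := 2*i+1 with hm
  have hm1 : (1:ℝ) ≤ m := by rw [hm]; push_cast; linarith [Nat.cast_nonneg (α := ℝ) i]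
  set τ : ℝ := 1/(16*m) with hτ
  have hτ0 : 0 < τ := by rw [hτ]; positivity
  have hG : ∀ j ∈ range (m+1), ∑' k, a k * ((2*(k:ℝ)+2) * (X k + (j:ℝ)*(τ * Y k))^(2*k+1) * Z k) = 0 := by
    intro j hj
    have hj' : (j:ℝ) * τ ≤ 1/16 := by
      have : (j:ℝ) ≤ m := by
        have := mem_range.mp hj
        exact_mod_cast (by omega : j ≤ m)
      rw [hτ]
      rw [mul_one_div, div_le_div_iff₀ (by positivity) (by norm_num)]
      linarith
    have hj0 : 0 ≤ (j:ℝ) * τ := by positivity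
    apply G_zero (fun k => X k + (j:ℝ)*(τ * Y k)) Z _ hZ (1/16) (by norm_num)
    · intro e he
      have := H ((j:ℝ)*τ) e (by rw [abs_of_nonneg hj0]; exact hj') he
      simpa [mul_assoc] using this
    · intro k
      calc |X k + (j:ℝ)*(τ * Y k)| ≤ |X k| + |(j:ℝ)*(τ * Y k)| := abs_add_le _ _
        _ ≤ 1 + 1/16 * 1 := by
          rw [← mul_assoc, abs_mul, abs_of_nonneg hj0]
          have := hX k
          have := hY k
          gcongr
        _ ≤ 3/2 := by norm_num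
  -- coefficients
  set co : ℕ → ℝ := fun j => (((-1 : ℤ) ^ (m - j) * m.choose j : ℤ) : ℝ) with hco
  have hcosum : ∑ j ∈ range (m+1), |co j| = 2^m := by
    have : ∀ j ∈ range (m+1), |co j| = (m.choose j : ℝ) := by
      intro j _
      simp only [hco]
      push_cast
      rw [abs_mul, abs_pow, abs_neg, abs_one, one_pow, one_mul, Nat.abs_cast]
    rw [sum_congr rfl this]
    have := Nat.sum_range_choose m
    exact_mod_cast this
  set D : ℕ → ℝ := fun k => ∑ j ∈ range (m+1), co j * (X k + (j:ℝ)*(τ * Y k))^(2*k+1) with hD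
  have hbase : ∀ j ∈ range (m+1), ∀ k, |X k + (j:ℝ)*(τ * Y k)| ≤ 2 := by
    intro j hj k
    have hj' : (j:ℝ) * τ ≤ 1/16 := by
      have : (j:ℝ) ≤ m := by
        have := mem_range.mp hj
        exact_mod_cast (by omega : j ≤ m)
      rw [hτ]
      rw [mul_one_div, div_le_div_iff₀ (by positivity) (by norm_num)]
      linarith
    have hj0 : 0 ≤ (j:ℝ) * τ := by positivity
    calc |X k + (j:ℝ)*(τ * Y k)| ≤ |X k| + |(j:ℝ)*(τ * Y k)| := abs_add_le _ _
      _ ≤ 1 + 1/16 * 1 := by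
        rw [← mul_assoc, abs_mul, abs_of_nonneg hj0]
        have := hX k
        have := hY k
        gcongr
      _ ≤ 2 := by norm_num
  have hDb : ∀ k, |D k| ≤ 2^m * 2^(2*k+1) := by
    intro k
    calc |D k| ≤ ∑ j ∈ range (m+1), |co j * (X k + (j:ℝ)*(τ * Y k))^(2*k+1)| := abs_sum_le_sum_abs _ _
      _ ≤ ∑ j ∈ range (m+1), |co j| * 2^(2*k+1) := by
        apply sum_le_sum
        intro j hj
        rw [abs_mul, abs_pow]
        have := hbase j hj k
        gcongr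
      _ = 2^m * 2^(2*k+1) := by rw [← sum_mul, hcosum]
  have hsum : ∀ j ∈ range (m+1), Summable (fun k => a k * ((2*(k:ℝ)+2) * (X k + (j:ℝ)*(τ * Y k))^(2*k+1) * Z k)) := by
    intro j hj
    apply Summable.of_norm_bounded be_summable
    intro k
    have ha := a_pos k
    rw [Real.norm_eq_abs, abs_mul, abs_mul, abs_mul, abs_pow, abs_of_pos ha, abs_of_pos (by positivity : (0:ℝ) < 2*(k:ℝ)+2)]
    unfold be
    have := hbase j hj k
    have := hZ k
    calc a k * ((2*(k:ℝ)+2) * |X k + (j:ℝ)*(τ * Y k)|^(2*k+1) * |Z k|) ≤ a k * ((2*(k:ℝ)+2) * 2^(2*k+1) * 1) := by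
          gcongr
      _ ≤ a k * (2*(k:ℝ)+2) * 2^(2*k+2) := by
          rw [pow_succ (2:ℝ) (2*k+1), mul_one, mul_assoc]
          gcongr
          have : (0:ℝ) < 2^(2*k+1) := by positivity
          linarith
  have hzero : ∑' k, a k * ((2*(k:ℝ)+2) * D k * Z k) = 0 := by
    have h1 : ∀ k, a k * ((2*(k:ℝ)+2) * D k * Z k) = ∑ j ∈ range (m+1), co j * (a k * ((2*(k:ℝ)+2) * (X k + (j:ℝ)*(τ * Y k))^(2*k+1) * Z k)) := by
      intro k
      simp only [hD]
      rw [mul_sum, sum_mul, mul_sum]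
      apply sum_congr rfl
      intro j _
      ring
    simp_rw [h1]
    rw [Summable.tsum_finsetSum]
    · apply sum_eq_zero
      intro j hj
      rw [tsum_mul_left, hG j hj, mul_zero]
    · intro j hj
      exact (hsum j hj).mul_left _
  have hDlt : ∀ k < i, D k = 0 := by
    intro k hk
    have := fd_eq m (2*k+1) (X k) (τ * Y k) (by omega)
    rw [if_neg (by omega)] at this
    exact this
  have hDi : D i = (m.factorial : ℝ) * (τ * Y i)^m := by
    have := fd_eq m (2*i+1) (X i) (τ * Y i) (by omega)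
    rw [if_pos hm.symm] at this
    exact this
  have hsumD : Summable (fun k => a k * ((2*(k:ℝ)+2) * D k * Z k)) := by
    apply Summable.of_norm_bounded (be_summable.mul_left (2^m))
    intro k
    have ha := a_pos k
    rw [Real.norm_eq_abs, abs_mul, abs_mul, abs_mul, abs_of_pos ha, abs_of_pos (by positivity : (0:ℝ) < 2*(k:ℝ)+2)]
    unfold be
    have h1 := hDb k
    have h2 := hZ k
    calc a k * ((2*(k:ℝ)+2) * |D k| * |Z k|) ≤ a k * ((2*(k:ℝ)+2) * (2^m * 2^(2*k+1)) * 1) := by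
          gcongr
      _ ≤ 2^m * (a k * (2*(k:ℝ)+2) * 2^(2*k+2)) := by
          have e : a k * ((2*(k:ℝ)+2) * (2^m * 2^(2*k+1)) * 1) = 2^m * (a k * (2*(k:ℝ)+2) * 2^(2*k+1)) := by ring
          rw [e, pow_succ (2:ℝ) (2*k+1)]
          gcongr
          have : (0:ℝ) < 2^(2*k+1) := by positivity
          linarith
  have hsplit := hsumD.sum_add_tsum_nat_add (i+1)
  rw [hzero, sum_range_succ, sum_eq_zero, zero_add] at hsplit
  swap
  · intro k hk
    rw [hDlt k (mem_range.mp hk)]; ring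
  have htail : |∑' k, a (k+(i+1)) * ((2*((k+(i+1):ℕ):ℝ)+2) * D (k+(i+1)) * Z (k+(i+1)))| ≤ 2^m * (a i * ((2*(i:ℝ)+1)^(2*(2*i+1)))⁻¹) := by
    have hs1 : Summable (fun j => be (i+1+j)) := by
      have := (summable_nat_add_iff (i+1)).mpr be_summable
      simpa [add_comm] using this
    have hb : ∀ k, ‖a (k+(i+1)) * ((2*((k+(i+1):ℕ):ℝ)+2) * D (k+(i+1)) * Z (k+(i+1)))‖ ≤ (2^m/2) * be (i+1+k) := by
      intro k0
      rw [show k0 + (i+1) = i+1+k0 by ring]
      set k := i+1+k0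
      have ha := a_pos k
      rw [Real.norm_eq_abs, abs_mul, abs_mul, abs_mul, abs_of_pos ha, abs_of_pos (by positivity : (0:ℝ) < 2*(k:ℝ)+2)]
      unfold be
      have h1 := hDb k
      have h2 := hZ k
      calc a k * ((2*(k:ℝ)+2) * |D k| * |Z k|) ≤ a k * ((2*(k:ℝ)+2) * (2^m * 2^(2*k+1)) * 1) := by
            gcongr
        _ = (2^m/2) * (a k * (2*(k:ℝ)+2) * 2^(2*k+2)) := by
            rw [pow_succ (2:ℝ) (2*k+1)]; ring
    have hs2 := hs1.mul_left ((2:ℝ)^m/2)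
    rw [← Real.norm_eq_abs]
    refine (tsum_of_norm_bounded hs2.hasSum hb).trans ?_
    rw [tsum_mul_left]
    have := be_tail_tsum i
    calc (2:ℝ)^m/2 * ∑' j, be (i+1+j) ≤ 2^m/2 * (2 * a i * ((2*(i:ℝ)+1)^(2*(2*i+1)))⁻¹) := by gcongr
      _ = _ := by ring
  have hlead : a i * ((2*(i:ℝ)+2) * D i * Z i) = - ∑' k, a (k+(i+1)) * ((2*((k+(i+1):ℕ):ℝ)+2) * D (k+(i+1)) * Z (k+(i+1))) := by
    linarith
  have habs : |a i * ((2*(i:ℝ)+2) * D i * Z i)| ≤ 2^m * (a i * ((2*(i:ℝ)+1)^(2*(2*i+1)))⁻¹) := by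
    rw [hlead, abs_neg]; exact htail
  have ha := a_pos i
  rw [abs_mul, abs_mul, abs_mul, abs_of_pos ha, abs_of_pos (by positivity : (0:ℝ) < 2*(i:ℝ)+2), hDi,
    abs_mul, abs_pow, abs_mul, abs_of_pos hτ0, Nat.abs_cast, mul_pow] at habs
  have h5 : (1:ℝ) ≤ (m.factorial : ℝ) := by exact_mod_cast Nat.succ_le_of_lt (Nat.factorial_pos m)
  have h6 : (1:ℝ) ≤ 2*(i:ℝ)+2 := by linarith [Nat.cast_nonneg (α := ℝ) i]
  have h7 : a i * (τ^m * |Y i|^m * |Z i|) ≤ 2^m * (a i * ((2*(i:ℝ)+1)^(2*(2*i+1)))⁻¹) := by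
    refine le_trans ?_ habs
    have e0 : 0 ≤ τ^m * |Y i|^m * |Z i| := by positivity
    have e1 : τ^m * |Y i|^m * |Z i| = 1 * (1 * (τ^m * |Y i|^m)) * |Z i| := by ring
    rw [e1]
    gcongr
  have h8 : τ^m * |Y i|^m * |Z i| ≤ 2^m * ((2*(i:ℝ)+1)^(2*(2*i+1)))⁻¹ := by
    have e : 2^m * (a i * ((2*(i:ℝ)+1)^(2*(2*i+1)))⁻¹) = a i * (2^m * ((2*(i:ℝ)+1)^(2*(2*i+1)))⁻¹) := by ring
    rw [e] at h7
    exact le_of_mul_le_mul_left h7 ha
  have hmi : (m:ℝ) = 2*(i:ℝ)+1 := by rw [hm]; push_cast; ring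
  rw [← hmi] at h8 ⊢
  have h9 : τ^m * (|Y i|^m * |Z i|) ≤ τ^m * (32/(m:ℝ))^m := by
    rw [← mul_assoc]
    refine h8.trans (le_of_eq ?_)
    rw [hτ, ← mul_pow, ← hm, pow_mul, ← inv_pow, ← mul_pow]
    congr 1
    field_simp
    ring
  have h10 := le_of_mul_le_mul_left h9 (by positivity)
  linarith [mul_comm (|Y i|^m) |Z i|]


/-! ### Part B : the norm -/

section normN
variable {W : Type*} [NormedAddCommGroup W] [NormedSpace ℝ W]

noncomputable def NN (ψ : ℕ → W →ₗ[ℝ] ℝ) (F : W) : ℝ :=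
  ‖F‖ + ∑' k, a k * (‖F‖ * (ψ k F / ‖F‖)^(2*k+2))

lemma a_le_be (k : ℕ) : a k * (2*(k:ℝ)+2) ≤ be k / 4 := by
  unfold be
  have ha := a_pos k
  have h1 : (2:ℝ)^2 ≤ 2^(2*k+2) := pow_le_pow_right₀ (by norm_num) (by omega)
  have : a k * (2*(k:ℝ)+2) * 2^2 ≤ a k * (2*(k:ℝ)+2) * 2^(2*k+2) := by gcongr
  linarith

lemma a_summable2 : Summable (fun k => a k * (2*(k:ℝ)+2)) := by
  apply Summable.of_nonneg_of_le (fun k => by have := a_pos k; positivity) a_le_be
  exact be_summable.div_const 4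

lemma a_tsum2 : ∑' k, a k * (2*(k:ℝ)+2) ≤ 1/2 := by
  calc ∑' k, a k * (2*(k:ℝ)+2) ≤ ∑' k, be k / 4 := a_summable2.tsum_le_tsum a_le_be (be_summable.div_const 4)
    _ = (∑' k, be k)/4 := tsum_div_const
    _ ≤ 1/2 := by linarith [be_tsum_le]

lemma a_summable : Summable a := by
  apply Summable.of_nonneg_of_le (fun k => (a_pos k).le) _ a_summable2
  intro k
  have := a_pos k
  have h : (0:ℝ) ≤ k := Nat.cast_nonneg k
  nlinarith

lemma a_tsum : ∑' k, a k ≤ 1/2 := by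
  refine le_trans (a_summable.tsum_le_tsum (fun k => ?_) a_summable2) a_tsum2
  have := a_pos k
  have h : (0:ℝ) ≤ k := Nat.cast_nonneg k
  nlinarith

variable (ψ : ℕ → W →ₗ[ℝ] ℝ) (hψ : ∀ k F, |ψ k F| ≤ ‖F‖)
include hψ

lemma ratio_le (k : ℕ) (F : W) : |ψ k F / ‖F‖| ≤ 1 := by
  rw [abs_div, abs_norm]
  exact div_le_one_of_le₀ (hψ k F) (norm_nonneg _)

lemma term_nonneg (k : ℕ) (A v : ℝ) (hA : 0 ≤ A) : 0 ≤ a k * (A * v^(2*k+2)) := by
  have := a_pos k
  have h : 0 ≤ v^(2*k+2) := by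
    have : 2*k+2 = 2*(k+1) := by ring
    rw [this, pow_mul]; positivity
  positivity

lemma NN_summable' (A : ℝ) (hA : 0 ≤ A) (v : ℕ → ℝ) (hv : ∀ k, |v k| ≤ 1) :
    Summable (fun k => a k * (A * (v k)^(2*k+2))) := by
  apply Summable.of_nonneg_of_le (fun k => term_nonneg ψ hψ k A (v k) hA) (f := fun k => a k * A)
  · intro k
    have ha := a_pos k
    have h1 : (v k)^(2*k+2) ≤ 1 := by
      have := pow_le_one₀ (n := 2*k+2) (abs_nonneg (v k)) (hv k)
      calc (v k)^(2*k+2) ≤ |(v k)^(2*k+2)| := le_abs_self _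
        _ = |v k|^(2*k+2) := abs_pow _ _
        _ ≤ 1 := this
    have : A * (v k)^(2*k+2) ≤ A * 1 := by gcongr
    rw [mul_one] at this
    gcongr
  · exact a_summable.mul_right A

lemma NN_summable (F : W) : Summable (fun k => a k * (‖F‖ * (ψ k F / ‖F‖)^(2*k+2))) :=
  NN_summable' ψ hψ ‖F‖ (norm_nonneg _) _ (fun k => ratio_le ψ hψ k F)

lemma NN_ge (F : W) : ‖F‖ ≤ NN ψ F := by
  unfold NN
  have : 0 ≤ ∑' k, a k * (‖F‖ * (ψ k F / ‖F‖)^(2*k+2)) :=
    tsum_nonneg (fun k => term_nonneg ψ hψ k _ _ (norm_nonneg _))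
  linarith

lemma NN_le (F : W) : NN ψ F ≤ 2 * ‖F‖ := by
  unfold NN
  have : ∑' k, a k * (‖F‖ * (ψ k F / ‖F‖)^(2*k+2)) ≤ ∑' k, a k * ‖F‖ := by
    apply (NN_summable ψ hψ F).tsum_le_tsum _ (a_summable.mul_right _)
    intro k
    have ha := a_pos k
    have h1 : (ψ k F / ‖F‖)^(2*k+2) ≤ 1 := by
      calc (ψ k F / ‖F‖)^(2*k+2) ≤ |(ψ k F / ‖F‖)^(2*k+2)| := le_abs_self _
        _ = |ψ k F / ‖F‖|^(2*k+2) := abs_pow _ _
        _ ≤ 1 := pow_le_one₀ (abs_nonneg _) (ratio_le ψ hψ k F)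
    have : ‖F‖ * (ψ k F / ‖F‖)^(2*k+2) ≤ ‖F‖ * 1 := by gcongr
    rw [mul_one] at this
    gcongr
  rw [tsum_mul_right] at this
  have h2 := a_tsum
  nlinarith [norm_nonneg F]

lemma NN_smul (c : ℝ) (F : W) : NN ψ (c • F) = |c| * NN ψ F := by
  unfold NN
  rw [mul_add, ← tsum_mul_left, norm_smul, Real.norm_eq_abs]
  congr 1
  apply tsum_congr
  intro k
  by_cases hc : c = 0
  · subst hc; simp
  have hc' : |c| ≠ 0 := abs_ne_zero.mpr hc
  rw [map_smul, smul_eq_mul]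
  have h1 : c * ψ k F / (|c| * ‖F‖) = (c/|c|) * (ψ k F/‖F‖) := by
    rw [mul_div_mul_comm]
  have h2 : (c/|c|)^(2*k+2) = 1 := by
    have : 2*k+2 = 2*(k+1) := by ring
    rw [this, pow_mul, div_pow, sq_abs, div_self (pow_ne_zero 2 hc), one_pow]
  rw [h1, mul_pow, h2]
  ring

/-- monotonicity of the perspective in the first variable -/
lemma persp_mono (k : ℕ) (C D v : ℝ) (hC : 0 < C) (hCD : C ≤ D) (hv : |v| ≤ C) :
    C * (v/C)^(2*k+2) - D * (v/D)^(2*k+2) ≤ (2*(k:ℝ)+1) * (D - C) := by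
  have hD : 0 < D := lt_of_lt_of_le hC hCD
  set u := v/C with hu
  set r := C/D with hr
  have hr0 : 0 < r := div_pos hC hD
  have hr1 : r ≤ 1 := (div_le_one hD).mpr hCD
  have h1 : v/D = u*r := by rw [hu, hr]; field_simp
  have h2 : C = D*r := by rw [hr]; field_simp
  have hu1 : u^(2*k+2) ≤ 1 := by
    calc u^(2*k+2) ≤ |u^(2*k+2)| := le_abs_self _
      _ = |u|^(2*k+2) := abs_pow _ _
      _ ≤ 1 := by
        apply pow_le_one₀ (abs_nonneg _)
        rw [hu, abs_div, abs_of_pos hC]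
        exact div_le_one_of_le₀ hv hC.le
  have hu0 : 0 ≤ u^(2*k+2) := by
    have : 2*k+2 = 2*(k+1) := by ring
    rw [this, pow_mul]; positivity
  rw [h1, mul_pow]
  have h3 : C * u^(2*k+2) - D * (u^(2*k+2) * r^(2*k+2)) = u^(2*k+2) * (D * (r * (1 - r^(2*k+1)))) := by
    rw [h2]; ring
  rw [h3]
  have hb : 1 - r^(2*k+1) ≤ (2*(k:ℝ)+1) * (1 - r) := by
    have := one_add_mul_le_pow (show (-2:ℝ) ≤ r - 1 by linarith) (2*k+1)
    rw [add_sub_cancel] at this
    push_cast at this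
    linarith
  have hb0 : 0 ≤ 1 - r^(2*k+1) := by
    have := pow_le_one₀ (n := 2*k+1) hr0.le hr1
    linarith
  have h4 : D * (r * (1 - r^(2*k+1))) ≤ D * (1 * ((2*(k:ℝ)+1) * (1 - r))) := by gcongr
  have h40 : 0 ≤ D * (r * (1 - r^(2*k+1))) := by positivity
  calc u^(2*k+2) * (D * (r * (1 - r^(2*k+1)))) ≤ 1 * (D * (r * (1 - r^(2*k+1)))) := by gcongr
    _ ≤ D * (1 * ((2*(k:ℝ)+1) * (1 - r))) := by rw [one_mul]; exact h4
    _ = (2*(k:ℝ)+1) * (D - C) := by rw [h2]; ring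

lemma persp_convex (k : ℕ) (A B x y : ℝ) (hA : 0 < A) (hB : 0 < B) :
    (A+B) * ((x+y)/(A+B))^(2*k+2) ≤ A * (x/A)^(2*k+2) + B * (y/B)^(2*k+2) := by
  have hc : ConvexOn ℝ Set.univ (fun t : ℝ => t^(2*k+2)) := by
    apply Even.convexOn_pow
    exact ⟨k+1, by ring⟩
  have hAB : 0 < A+B := by positivity
  have h := hc.2 (Set.mem_univ (x/A)) (Set.mem_univ (y/B)) (div_nonneg hA.le hAB.le) (div_nonneg hB.le hAB.le)
    (by field_simp)
  simp only [smul_eq_mul] at h
  have e : A/(A+B) * (x/A) + B/(A+B) * (y/B) = (x+y)/(A+B) := by field_simp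
  rw [e] at h
  calc (A+B) * ((x+y)/(A+B))^(2*k+2) ≤ (A+B) * (A/(A+B) * (x/A)^(2*k+2) + B/(A+B) * (y/B)^(2*k+2)) := by gcongr
    _ = _ := by field_simp

lemma NN_triangle (F G : W) : NN ψ (F + G) ≤ NN ψ F + NN ψ G := by
  by_cases hF : F = 0
  · subst hF; simp [NN]
  by_cases hG : G = 0
  · subst hG; simp [NN]
  by_cases hFG : F + G = 0
  · rw [hFG]
    have h1 := NN_ge ψ hψ F
    have h2 := NN_ge ψ hψ G
    have h3 := NN_le ψ hψ (0:W)
    rw [norm_zero] at h3
    linarith [norm_nonneg F, norm_nonneg G]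
  have hA : 0 < ‖F‖ := norm_pos_iff.mpr hF
  have hB : 0 < ‖G‖ := norm_pos_iff.mpr hG
  have hC : 0 < ‖F+G‖ := norm_pos_iff.mpr hFG
  have hCD : ‖F+G‖ ≤ ‖F‖+‖G‖ := norm_add_le _ _
  have hD : 0 < ‖F‖+‖G‖ := by positivity
  have s1 := NN_summable ψ hψ (F+G)
  have s2 := NN_summable ψ hψ F
  have s3 := NN_summable ψ hψ G
  have s4 : Summable (fun k => a k * ((‖F‖+‖G‖) * (ψ k (F+G) / (‖F‖+‖G‖))^(2*k+2))) := by
    apply NN_summable' ψ hψ _ hD.le
    intro k
    rw [abs_div, abs_of_pos hD]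
    exact div_le_one_of_le₀ ((hψ k _).trans hCD) hD.le
  have s5 : Summable (fun k => a k * (2*(k:ℝ)+2) * ((‖F‖+‖G‖) - ‖F+G‖)) := a_summable2.mul_right _
  have c1 : ∑' k, a k * (‖F+G‖ * (ψ k (F+G) / ‖F+G‖)^(2*k+2)) ≤
      ∑' k, a k * ((‖F‖+‖G‖) * (ψ k (F+G) / (‖F‖+‖G‖))^(2*k+2)) + ((‖F‖+‖G‖) - ‖F+G‖) := by
    have : ∑' k, a k * (‖F+G‖ * (ψ k (F+G) / ‖F+G‖)^(2*k+2)) ≤
      ∑' k, (a k * ((‖F‖+‖G‖) * (ψ k (F+G) / (‖F‖+‖G‖))^(2*k+2)) + a k * (2*(k:ℝ)+2) * ((‖F‖+‖G‖) - ‖F+G‖)) := by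
      apply s1.tsum_le_tsum _ (s4.add s5)
      intro k
      have h := persp_mono ψ hψ k ‖F+G‖ (‖F‖+‖G‖) (ψ k (F+G)) hC hCD (hψ k _)
      have ha := a_pos k
      have hd : 0 ≤ (‖F‖+‖G‖) - ‖F+G‖ := by linarith
      have h2 : a k * (‖F+G‖ * (ψ k (F+G) / ‖F+G‖)^(2*k+2)) ≤ a k * ((‖F‖+‖G‖) * (ψ k (F+G) / (‖F‖+‖G‖))^(2*k+2) + (2*(k:ℝ)+2) * ((‖F‖+‖G‖) - ‖F+G‖)) := by
        apply mul_le_mul_of_nonneg_left _ ha.le
        nlinarith
      linarith [h2]
    rw [s4.tsum_add s5, tsum_mul_right] at this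
    have h5 := a_tsum2
    have hd : 0 ≤ (‖F‖+‖G‖) - ‖F+G‖ := by linarith
    nlinarith
  have c2 : ∑' k, a k * ((‖F‖+‖G‖) * (ψ k (F+G) / (‖F‖+‖G‖))^(2*k+2)) ≤
      ∑' k, a k * (‖F‖ * (ψ k F / ‖F‖)^(2*k+2)) + ∑' k, a k * (‖G‖ * (ψ k G / ‖G‖)^(2*k+2)) := by
    rw [← s2.tsum_add s3]
    apply s4.tsum_le_tsum _ (s2.add s3)
    intro k
    have ha := a_pos k
    rw [map_add, ← mul_add]
    apply mul_le_mul_of_nonneg_left _ ha.le
    exact persp_convex ψ hψ k _ _ _ _ hA hB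
  unfold NN
  linarith

/-- at a vector of norm one -/
lemma NN_unit (F : W) (h : ‖F‖ = 1) : NN ψ F = 1 + ∑' k, a k * (ψ k F)^(2*k+2) := by
  unfold NN
  rw [h]
  simp

end normN


/-! ### the space `c_0` -/

open scoped ZeroAtInfty

def EE : Type := C₀(ℕ, ℝ)
noncomputable instance : NormedAddCommGroup EE := inferInstanceAs (NormedAddCommGroup C₀(ℕ, ℝ))
noncomputable instance : NormedSpace ℝ EE := inferInstanceAs (NormedSpace ℝ C₀(ℕ, ℝ))
instance : CompleteSpace EE := inferInstanceAs (CompleteSpace C₀(ℕ, ℝ))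

def toF (F : EE) : ℕ → ℝ := fun n => (show C₀(ℕ, ℝ) from F) n

noncomputable def mkE (f : ℕ → ℝ) (h : Tendsto f cofinite (𝓝 0)) : EE :=
  (⟨⟨f, continuous_of_discreteTopology⟩, by
    show Tendsto f (cocompact ℕ) (𝓝 0)
    rw [cocompact_eq_cofinite]; exact h⟩ : C₀(ℕ, ℝ))

lemma toF_mkE (f : ℕ → ℝ) (h : Tendsto f cofinite (𝓝 0)) : toF (mkE f h) = f := rfl

lemma toF_tendsto (F : EE) : Tendsto (toF F) cofinite (𝓝 0) := by
  have h := (show C₀(ℕ, ℝ) from F).zero_at_infty'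
  rw [cocompact_eq_cofinite] at h
  exact h

lemma toF_inj (F G : EE) (h : ∀ n, toF F n = toF G n) : F = G :=
  ZeroAtInftyContinuousMap.ext (f := (show C₀(ℕ, ℝ) from F)) (g := (show C₀(ℕ, ℝ) from G)) h

noncomputable def ev (n : ℕ) : EE →ₗ[ℝ] ℝ where
  toFun F := toF F n
  map_add' _ _ := rfl
  map_smul' _ _ := rfl

lemma norm_bcf (F : EE) : ‖F‖ = ‖(show C₀(ℕ, ℝ) from F).toBCF‖ := rfl

lemma ev_le (n : ℕ) (F : EE) : |ev n F| ≤ ‖F‖ :=
  BoundedContinuousFunction.norm_coe_le_norm (show C₀(ℕ, ℝ) from F).toBCF n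

lemma norm_le_of_ev (F : EE) (C : ℝ) (hC : 0 ≤ C) (h : ∀ n, |ev n F| ≤ C) : ‖F‖ ≤ C :=
  (BoundedContinuousFunction.norm_le (f := (show C₀(ℕ, ℝ) from F).toBCF) hC).mpr h

lemma fin_large (F : EE) (δ : ℝ) (hδ : 0 < δ) : {n : ℕ | δ ≤ |ev n F|}.Finite := by
  have h := toF_tendsto F
  rw [Metric.tendsto_nhds] at h
  have h1 := h δ hδ
  rw [Filter.eventually_cofinite] at h1
  apply h1.subset
  intro n hn
  simp only [Set.mem_ofPred_eq, dist_zero_right, Real.norm_eq_abs, not_lt] at hn ⊢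
  exact hn

noncomputable def pt (n : ℕ) : EE := mkE (fun i => if i = n then 1 else 0) (by
  apply tendsto_nhds_of_eventually_eq
  rw [Filter.eventually_cofinite]
  apply (Set.finite_singleton n).subset
  intro i hi
  simp only [Set.mem_ofPred_eq] at hi
  by_contra hne
  exact hi (if_neg hne))

lemma ev_pt (i n : ℕ) : ev i (pt n) = if i = n then 1 else 0 := rfl

/-- coordinate projections -/
noncomputable def Q (m : ℕ) : EE →ₗ[ℝ] EE where
  toFun F := ∑ i ∈ Finset.range m, ev i F • pt i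
  map_add' F G := by
    rw [← Finset.sum_add_distrib]
    apply Finset.sum_congr rfl
    intro i _
    rw [map_add, add_smul]
  map_smul' c F := by
    rw [RingHom.id_apply, Finset.smul_sum]
    apply Finset.sum_congr rfl
    intro i _
    rw [map_smul, smul_smul, smul_eq_mul]

lemma Q_apply (m : ℕ) (F : EE) : Q m F = ∑ i ∈ Finset.range m, ev i F • pt i := rfl

lemma ev_Q (m n : ℕ) (F : EE) : ev n (Q m F) = if n < m then ev n F else 0 := by
  rw [Q_apply, map_sum]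
  simp only [map_smul, ev_pt, smul_eq_mul, mul_ite, mul_one, mul_zero]
  rw [Finset.sum_ite_eq]
  simp

lemma ev_ext (F G : EE) (h : ∀ n, ev n F = ev n G) : F = G := toF_inj F G h

lemma Q_norm (N : ℕ) (F : EE) : ‖Q N F‖ ≤ ‖F‖ := by
  refine norm_le_of_ev (Q N F) ‖F‖ (norm_nonneg F) ?_
  intro x
  rw [ev_Q]
  split_ifs
  · exact ev_le x F
  · rw [abs_zero]; exact norm_nonneg _

lemma Q_Q (N M : ℕ) (F : EE) : Q N (Q M F) = Q (min N M) F := by
  apply ev_ext; intro x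
  rw [ev_Q, ev_Q, ev_Q]
  by_cases h1 : x < N <;> by_cases h2 : x < M <;> simp [h1, h2]

lemma Q_tendsto (F : EE) : Tendsto (fun N => ‖Q N F - F‖) atTop (𝓝 0) := by
  rw [Metric.tendsto_atTop]
  intro ε hε
  obtain ⟨b, hb⟩ := (fin_large F (ε/2) (by positivity)).bddAbove
  refine ⟨b+1, fun N hN => ?_⟩
  rw [dist_zero_right, norm_norm]
  refine lt_of_le_of_lt (norm_le_of_ev _ (ε/2) (by positivity) ?_) (by linarith)
  intro n
  have hsub : ev n (Q N F - F) = ev n (Q N F) - ev n F := by rw [map_sub]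
  rw [hsub, ev_Q]
  split_ifs with h
  · rw [sub_self, abs_zero]; positivity
  · rw [zero_sub, abs_neg]
    by_contra hc
    push Not at hc
    have : n ≤ b := hb hc.le
    omega

/-! ### functionals -/

noncomputable def enum : ℕ → ℕ × ℕ := Classical.choose (exists_surjective_nat (ℕ × ℕ))
lemma enum_surj : Function.Surjective enum := Classical.choose_spec (exists_surjective_nat (ℕ × ℕ))

noncomputable def p1 (k : ℕ) : ℕ := (enum (Nat.unpair k).1).1
noncomputable def p2 (k : ℕ) : ℕ := (enum (Nat.unpair k).1).2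

noncomputable def psi (k : ℕ) : EE →ₗ[ℝ] ℝ := (1/2 : ℝ) • (ev (p1 k) + ev (p2 k))

lemma psi_apply (k : ℕ) (F : EE) : psi k F = (1/2 : ℝ) * (ev (p1 k) F + ev (p2 k) F) := rfl

lemma psi_le (k : ℕ) (F : EE) : |psi k F| ≤ ‖F‖ := by
  rw [psi_apply, abs_mul, abs_of_pos (by norm_num : (0:ℝ) < 1/2)]
  have h1 := ev_le (p1 k) F
  have h2 := ev_le (p2 k) F
  have h3 := abs_add_le (ev (p1 k) F) (ev (p2 k) F)
  linarith

/-! ### the renormed space -/

def V : Type := EE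
noncomputable instance : AddCommGroup V := inferInstanceAs (AddCommGroup EE)
noncomputable instance : Module ℝ V := inferInstanceAs (Module ℝ EE)

noncomputable def toE : V ≃ₗ[ℝ] EE := LinearEquiv.refl ℝ EE

noncomputable instance : Norm V := ⟨fun F => NN psi (toE F)⟩

lemma norm_def (F : V) : ‖F‖ = NN psi (toE F) := rfl

lemma coreV : NormedSpace.Core ℝ V where
  norm_nonneg F := (norm_nonneg _).trans (NN_ge psi psi_le (toE F))
  norm_smul c F := by
    rw [norm_def, map_smul, NN_smul psi psi_le c (toE F)]; rfl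
  norm_triangle F G := by
    rw [norm_def, map_add]
    exact NN_triangle psi psi_le (toE F) (toE G)
  norm_eq_zero_iff F := by
    constructor
    · intro h
      have h1 := NN_ge psi psi_le (toE F)
      rw [← norm_def, h] at h1
      have h2 : ‖toE F‖ = 0 := le_antisymm h1 (norm_nonneg _)
      exact (LinearEquiv.map_eq_zero_iff toE).mp (norm_eq_zero.mp h2)
    · intro h
      subst h
      rw [norm_def, map_zero]
      have h1 := NN_ge psi psi_le (0 : EE)
      have h2 := NN_le psi psi_le (0 : EE)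
      rw [norm_zero] at h1 h2
      linarith

noncomputable instance : NormedAddCommGroup V := NormedAddCommGroup.ofCore coreV
noncomputable instance : NormedSpace ℝ V := NormedSpace.ofCore coreV

lemma normV (F : V) : ‖F‖ = NN psi (toE F) := rfl
lemma toE_le (F : V) : ‖toE F‖ ≤ ‖F‖ := NN_ge psi psi_le (toE F)
lemma le_toE (F : V) : ‖F‖ ≤ 2 * ‖toE F‖ := NN_le psi psi_le (toE F)

instance : CompleteSpace V := by
  apply Metric.complete_of_cauchySeq_tendsto
  intro u hu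
  have h1 : CauchySeq (fun n => toE (u n)) := by
    rw [Metric.cauchySeq_iff] at hu ⊢
    intro ε hε
    obtain ⟨N, hN⟩ := hu ε hε
    refine ⟨N, fun m hm n hn => ?_⟩
    have := hN m hm n hn
    rw [dist_eq_norm] at this ⊢
    rw [← map_sub]
    exact lt_of_le_of_lt (toE_le _) this
  obtain ⟨x, hx⟩ := cauchySeq_tendsto_of_complete h1
  refine ⟨toE.symm x, ?_⟩
  rw [tendsto_iff_norm_sub_tendsto_zero] at hx ⊢
  have h2 := hx.const_mul 2
  rw [mul_zero] at h2
  refine squeeze_zero (fun n => norm_nonneg _) (fun n => ?_) h2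
  have := le_toE (u n - toE.symm x)
  rw [map_sub, LinearEquiv.apply_symm_apply] at this
  exact this


/-! ### tails -/

noncomputable def bad (m : ℕ) (k : ℕ) : ℝ := if p1 k < m ∧ p2 k < m then 0 else a k

lemma bad_nonneg (m k : ℕ) : 0 ≤ bad m k := by
  unfold bad; split_ifs
  · exact le_refl _
  · exact (a_pos k).le

lemma bad_le (m k : ℕ) : bad m k ≤ a k := by
  unfold bad; split_ifs
  · exact (a_pos k).le
  · exact le_refl _

lemma bad_summable (m : ℕ) : Summable (bad m) :=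
  Summable.of_nonneg_of_le (bad_nonneg m) (bad_le m) a_summable

noncomputable def tau (m : ℕ) : ℝ := ∑' k, bad m k

lemma tau_nonneg (m : ℕ) : 0 ≤ tau m := tsum_nonneg (bad_nonneg m)

lemma tau_anti (m n : ℕ) (h : m ≤ n) : tau n ≤ tau m := by
  apply (bad_summable n).tsum_le_tsum _ (bad_summable m)
  intro k
  unfold bad
  by_cases h1 : p1 k < m ∧ p2 k < m
  · rw [if_pos h1, if_pos ⟨by omega, by omega⟩]
  · rw [if_neg h1]
    split_ifs
    · exact (a_pos k).le
    · exact le_refl _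

lemma tau_tendsto : Tendsto tau atTop (𝓝 0) := by
  have h : Tendsto (fun m => ∑' k, bad m k) atTop (𝓝 (∑' _ : ℕ, (0:ℝ))) := by
    apply tendsto_tsum_of_dominated_convergence a_summable
    · intro k
      apply tendsto_nhds_of_eventually_eq
      filter_upwards [eventually_gt_atTop (max (p1 k) (p2 k))] with m hm
      unfold bad
      rw [if_pos ⟨lt_of_le_of_lt (le_max_left _ _) hm, lt_of_le_of_lt (le_max_right _ _) hm⟩]
    · filter_upwards with m k
      rw [Real.norm_of_nonneg (bad_nonneg m k)]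
      exact bad_le m k
  rw [tsum_zero] at h
  exact h

lemma NN_Q (m : ℕ) (F : EE) : NN psi (Q m F) ≤ (1 + tau m) * NN psi F := by
  have hF := NN_ge psi psi_le F
  by_cases h0 : Q m F = 0
  · rw [h0]
    have h1 := NN_le psi psi_le (0 : EE)
    rw [norm_zero, mul_zero] at h1
    have h2 := tau_nonneg m
    have h3 := norm_nonneg F
    exact h1.trans (mul_nonneg (by linarith) (by linarith))
  have hC : 0 < ‖Q m F‖ := norm_pos_iff.mpr h0
  have hCD : ‖Q m F‖ ≤ ‖F‖ := Q_norm m F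
  have s1 := NN_summable psi psi_le (Q m F)
  have s2 := NN_summable psi psi_le F
  have s5 : Summable (fun k => a k * (2*(k:ℝ)+2) * (‖F‖ - ‖Q m F‖)) := a_summable2.mul_right _
  have s6 : Summable (fun k => bad m k * ‖F‖) := (bad_summable m).mul_right _
  have key : ∑' k, a k * (‖Q m F‖ * (psi k (Q m F) / ‖Q m F‖)^(2*k+2)) ≤
      ∑' k, (a k * (‖F‖ * (psi k F / ‖F‖)^(2*k+2)) + a k * (2*(k:ℝ)+2) * (‖F‖ - ‖Q m F‖) + bad m k * ‖F‖) := by
    apply s1.tsum_le_tsum _ ((s2.add s5).add s6)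
    intro k
    have ha := a_pos k
    have hd : 0 ≤ ‖F‖ - ‖Q m F‖ := by linarith
    have t1 := term_nonneg psi psi_le k ‖F‖ (psi k F / ‖F‖) (norm_nonneg _)
    by_cases hg : p1 k < m ∧ p2 k < m
    · have hpsi : psi k (Q m F) = psi k F := by
        rw [psi_apply, psi_apply, ev_Q, ev_Q, if_pos hg.1, if_pos hg.2]
      have hv : |psi k F| ≤ ‖Q m F‖ := by rw [← hpsi]; exact psi_le k _
      have h := persp_mono psi psi_le k ‖Q m F‖ ‖F‖ (psi k F) hC hCD hv
      rw [hpsi]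
      have h2 : a k * (‖Q m F‖ * (psi k F / ‖Q m F‖)^(2*k+2)) ≤ a k * (‖F‖ * (psi k F / ‖F‖)^(2*k+2) + (2*(k:ℝ)+2) * (‖F‖ - ‖Q m F‖)) := by
        apply mul_le_mul_of_nonneg_left _ ha.le
        nlinarith
      have h3 : 0 ≤ bad m k * ‖F‖ := mul_nonneg (bad_nonneg m k) (norm_nonneg _)
      linarith
    · have hb : bad m k = a k := by unfold bad; rw [if_neg hg]
      rw [hb]
      have h1 : (psi k (Q m F) / ‖Q m F‖)^(2*k+2) ≤ 1 := by
        calc (psi k (Q m F) / ‖Q m F‖)^(2*k+2) ≤ |(psi k (Q m F) / ‖Q m F‖)^(2*k+2)| := le_abs_self _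
          _ = |psi k (Q m F) / ‖Q m F‖|^(2*k+2) := abs_pow _ _
          _ ≤ 1 := pow_le_one₀ (abs_nonneg _) (ratio_le psi psi_le k _)
      have h2 : ‖Q m F‖ * (psi k (Q m F) / ‖Q m F‖)^(2*k+2) ≤ ‖F‖ := by
        calc ‖Q m F‖ * (psi k (Q m F) / ‖Q m F‖)^(2*k+2) ≤ ‖Q m F‖ * 1 := by gcongr
          _ ≤ ‖F‖ := by rw [mul_one]; exact hCD
      have h3 : a k * (‖Q m F‖ * (psi k (Q m F) / ‖Q m F‖)^(2*k+2)) ≤ a k * ‖F‖ := by gcongr
      have h4 : 0 ≤ a k * (2*(k:ℝ)+2) * (‖F‖ - ‖Q m F‖) := by positivity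
      linarith
  rw [(s2.add s5).tsum_add s6, s2.tsum_add s5, tsum_mul_right, tsum_mul_right] at key
  have h5 := a_tsum2
  have hd : 0 ≤ ‖F‖ - ‖Q m F‖ := by linarith
  have h6 : (∑' k, a k * (2*(k:ℝ)+2)) * (‖F‖ - ‖Q m F‖) ≤ 1/2 * (‖F‖ - ‖Q m F‖) := by gcongr
  have h7 : tau m * ‖F‖ ≤ tau m * NN psi F := mul_le_mul_of_nonneg_left hF (tau_nonneg m)
  have h8 : NN psi (Q m F) = ‖Q m F‖ + ∑' k, a k * (‖Q m F‖ * (psi k (Q m F) / ‖Q m F‖)^(2*k+2)) := rfl
  have h9 : NN psi F = ‖F‖ + ∑' k, a k * (‖F‖ * (psi k F / ‖F‖)^(2*k+2)) := rfl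
  have h10 : tau m = ∑' k, bad m k := rfl
  rw [h10] at h7 ⊢
  linarith

/-! ### projections on `V` -/

noncomputable def QV (N : ℕ) : V →L[ℝ] V :=
  LinearMap.mkContinuous (toE.symm.toLinearMap ∘ₗ Q N ∘ₗ toE.toLinearMap) (1 + tau N) (by
    intro F
    exact NN_Q N (toE F))

lemma toE_QV (N : ℕ) (F : V) : toE (QV N F) = Q N (toE F) := rfl

lemma QV_norm (N : ℕ) : ‖QV N‖ ≤ 1 + tau N :=
  LinearMap.mkContinuous_norm_le _ (by have := tau_nonneg N; linarith) _

lemma QV_comp (n m : ℕ) : (QV n).comp (QV m) = QV (min n m) := by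
  ext F
  apply toE.injective
  show Q n (Q m (toE F)) = Q (min n m) (toE F)
  exact Q_Q n m _

lemma QV_tendsto (F : V) : Tendsto (fun N => QV N F) atTop (𝓝 F) := by
  rw [tendsto_iff_norm_sub_tendsto_zero]
  have h2 := (Q_tendsto (toE F)).const_mul 2
  rw [mul_zero] at h2
  refine squeeze_zero (fun n => norm_nonneg _) (fun n => ?_) h2
  exact le_toE (QV n F - F)

lemma QV_fin (N : ℕ) : FiniteDimensional ℝ (LinearMap.range (QV N : V →ₗ[ℝ] V)) := by
  classical
  have hle : LinearMap.range (QV N : V →ₗ[ℝ] V) ≤ Submodule.span ℝ (((Finset.range N).image (fun i => toE.symm (pt i)) : Finset V) : Set V) := by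
    rintro _ ⟨F, rfl⟩
    have : (QV N : V →ₗ[ℝ] V) F = ∑ i ∈ Finset.range N, ev i (toE F) • toE.symm (pt i) := by
      apply toE.injective
      rw [map_sum]
      simp only [map_smul, LinearEquiv.apply_symm_apply]
      rfl
    rw [this]
    apply Submodule.sum_mem
    intro i hi
    apply Submodule.smul_mem
    apply Submodule.subset_span
    simp only [Finset.coe_image, Set.mem_image, Finset.mem_coe]
    exact ⟨i, hi, rfl⟩
  exact Submodule.finiteDimensional_of_le hle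

instance : TopologicalSpace.SeparableSpace V := by
  set T : Set V := Set.range (fun i => toE.symm (pt i)) with hT
  have hTc : T.Countable := Set.countable_range _
  have hsep : TopologicalSpace.IsSeparable (closure (Submodule.span ℝ T : Set V)) :=
    (TopologicalSpace.IsSeparable.span hTc.isSeparable).closure
  rw [← TopologicalSpace.isSeparable_univ_iff]
  refine hsep.mono (fun x _ => ?_)
  apply mem_closure_of_tendsto (QV_tendsto x)
  filter_upwards with N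
  have : QV N x = ∑ i ∈ Finset.range N, ev i (toE x) • toE.symm (pt i) := by
    apply toE.injective
    rw [map_sum]
    simp only [map_smul, LinearEquiv.apply_symm_apply]
    rfl
  rw [this]
  apply Submodule.sum_mem
  intro i _
  exact Submodule.smul_mem _ _ (Submodule.subset_span ⟨i, rfl⟩)

/-! ### no norm-one projections of finite rank at least two -/

lemma vanish (K : Submodule ℝ V) (hK : ¬ FiniteDimensional ℝ K) (A : Set ℕ) (hA : A.Finite) :
    ∃ z ∈ K, toE z ≠ 0 ∧ ∀ x ∈ A, ev x (toE z) = 0 := by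
  haveI := hA.fintype
  let L : K →ₗ[ℝ] (A → ℝ) := LinearMap.pi (fun x => (ev x.1) ∘ₗ toE.toLinearMap ∘ₗ K.subtype)
  by_contra hcon
  apply hK
  have hinj : Function.Injective L := by
    rw [← LinearMap.ker_eq_bot, LinearMap.ker_eq_bot']
    intro z hz
    by_contra hne
    apply hcon
    have h0 : toE (z : V) ≠ 0 := by
      intro h
      exact hne (Subtype.ext ((LinearEquiv.map_eq_zero_iff toE).mp h))
    refine ⟨(z : V), z.2, h0, ?_⟩
    intro x hx
    exact congrFun hz ⟨x, hx⟩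
  exact FiniteDimensional.of_injective L hinj

lemma V_infdim : ¬ FiniteDimensional ℝ V := by
  intro hfin
  have hli : LinearIndependent ℝ (fun n : ℕ => toE.symm (pt n)) := by
    rw [linearIndependent_iff']
    intro s g hg i hi
    have h1 := congrArg (fun v : V => ev i (toE v)) hg
    simp only [map_sum, map_smul, LinearEquiv.apply_symm_apply, ev_pt, map_zero, smul_eq_mul, mul_ite, mul_one, mul_zero] at h1
    rw [Finset.sum_ite_eq, if_pos hi] at h1
    exact h1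
  have := hli.finite_of_isNoetherian
  exact not_finite ℕ

lemma ker_infdim (u : V →L[ℝ] V) (hu : FiniteDimensional ℝ (LinearMap.range (u : V →ₗ[ℝ] V))) :
    ¬ FiniteDimensional ℝ (LinearMap.ker (u : V →ₗ[ℝ] V)) := by
  intro hk
  apply V_infdim
  have h1 : FiniteDimensional ℝ (V ⧸ LinearMap.ker (u : V →ₗ[ℝ] V)) :=
    LinearEquiv.finiteDimensional (LinearMap.quotKerEquivRange (u : V →ₗ[ℝ] V)).symm
  exact Module.Finite.of_submodule_quotient (LinearMap.ker (u : V →ₗ[ℝ] V))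

/-- peak set -/
def Pk (F : EE) : Set ℕ := {n | |ev n F| = ‖F‖}

lemma Pk_finite (F : EE) (h : F ≠ 0) : (Pk F).Finite := by
  have hp : 0 < ‖F‖ := norm_pos_iff.mpr h
  exact (fin_large F ‖F‖ hp).subset (fun n hn => (show |ev n F| = ‖F‖ from hn).ge)

/-- gap -/
lemma gap (F : EE) (hF : ‖F‖ = 1) : ∃ η : ℝ, 0 < η ∧ η ≤ 1/4 ∧ ∀ n, n ∉ Pk F → |ev n F| ≤ 1 - η := by
  classical
  have hfin := fin_large F (1/2) (by norm_num)
  set A := hfin.toFinset.filter (fun n => n ∉ Pk F) with hA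
  have hlt : ∀ n ∈ A, 0 < 1 - |ev n F| := by
    intro n hn
    rw [hA, Finset.mem_filter] at hn
    have h1 := ev_le n F
    rw [hF] at h1
    have h2 : |ev n F| ≠ 1 := by
      intro h; apply hn.2; show |ev n F| = ‖F‖; rw [h, hF]
    have := lt_of_le_of_ne h1 h2
    linarith
  by_cases hAe : A.Nonempty
  · obtain ⟨n0, hn0, hmin⟩ := A.exists_min_image (fun n => 1 - |ev n F|) hAe
    refine ⟨min (1/4) (1 - |ev n0 F|), lt_min (by norm_num) (hlt n0 hn0), min_le_left _ _, ?_⟩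
    intro n hn
    by_cases hb : 1/2 ≤ |ev n F|
    · have hnA : n ∈ A := by
        rw [hA, Finset.mem_filter]
        exact ⟨hfin.mem_toFinset.mpr hb, hn⟩
      have h1 := hmin n hnA
      have h2 := min_le_right (1/4:ℝ) (1 - |ev n0 F|)
      linarith
    · push Not at hb
      have h2 := min_le_left (1/4:ℝ) (1 - |ev n0 F|)
      linarith
  · refine ⟨1/4, by norm_num, le_refl _, ?_⟩
    intro n hn
    by_cases hb : 1/2 ≤ |ev n F|
    · exfalso
      apply hAe
      refine ⟨n, ?_⟩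
      rw [hA, Finset.mem_filter]
      exact ⟨hfin.mem_toFinset.mpr hb, hn⟩
    · push Not at hb
      linarith

lemma Pk_nonempty (F : EE) (h : F ≠ 0) : (Pk F).Nonempty := by
  have hp : 0 < ‖F‖ := norm_pos_iff.mpr h
  set G : EE := ‖F‖⁻¹ • F with hG
  have hG1 : ‖G‖ = 1 := by rw [hG, norm_smul, norm_inv, norm_norm, inv_mul_cancel₀ hp.ne']
  obtain ⟨η, hη, _, hgap⟩ := gap G hG1
  by_contra hne
  rw [Set.not_nonempty_iff_eq_empty] at hne
  have hPG : ∀ n, n ∉ Pk G := by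
    intro n hn
    have h1 : |ev n G| = ‖G‖ := hn
    rw [hG1, hG, map_smul, smul_eq_mul, abs_mul, abs_inv, abs_norm] at h1
    have : n ∈ Pk F := by
      show |ev n F| = ‖F‖
      field_simp at h1
      exact h1
    rw [hne] at this
    exact this
  have := norm_le_of_ev G (1 - η) (by have := hgap 0 (hPG 0); linarith [abs_nonneg (ev 0 G)]) (fun n => hgap n (hPG n))
  linarith

lemma Pk_smul (c : ℝ) (hc : c ≠ 0) (F : EE) : Pk (c • F) = Pk F := by
  ext n
  show |ev n (c • F)| = ‖c • F‖ ↔ |ev n F| = ‖F‖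
  rw [map_smul, smul_eq_mul, abs_mul, norm_smul, Real.norm_eq_abs]
  have : 0 < |c| := abs_pos.mpr hc
  constructor
  · intro h; exact mul_left_cancel₀ this.ne' h
  · intro h; rw [h]

lemma limit_arg (y z : ℝ) (h : ∀ l : ℕ, ∃ i : ℕ, l ≤ i ∧ |z| * |y|^(2*i+1) ≤ (32/(2*(i:ℝ)+1))^(2*i+1)) :
    z = 0 ∨ y = 0 := by
  by_contra hcon
  push Not at hcon
  obtain ⟨hz, hy⟩ := hcon
  have hz' : 0 < |z| := abs_pos.mpr hz
  have hy' : 0 < |y| := abs_pos.mpr hy
  obtain ⟨l1, hl1⟩ := exists_nat_gt (64/|y|)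
  obtain ⟨l2, hl2⟩ := exists_pow_lt_of_lt_one hz' (show (1/2:ℝ) < 1 by norm_num)
  obtain ⟨i, hi, hle⟩ := h (max l1 l2)
  have hi1 : l1 ≤ i := (le_max_left _ _).trans hi
  have hi2 : l2 ≤ i := (le_max_right _ _).trans hi
  have h1 : 32/(2*(i:ℝ)+1) ≤ |y|/2 := by
    have h2 : 64/|y| ≤ 2*(i:ℝ)+1 := by
      have : (l1:ℝ) ≤ i := by exact_mod_cast hi1
      have h0 : (0:ℝ) ≤ i := Nat.cast_nonneg i
      linarith
    rw [div_le_iff₀ hy'] at h2
    rw [div_le_div_iff₀ (by positivity) (by norm_num)]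
    linarith
  have h3 : (32/(2*(i:ℝ)+1))^(2*i+1) ≤ (|y|/2)^(2*i+1) := by gcongr
  have h4 : |z| * |y|^(2*i+1) ≤ (1/2)^(2*i+1) * |y|^(2*i+1) := by
    refine (hle.trans h3).trans (le_of_eq ?_)
    rw [← mul_pow]; congr 1; ring
  have h5 : |z| ≤ (1/2)^(2*i+1) := le_of_mul_le_mul_right h4 (by positivity)
  have h6 : (1/2:ℝ)^(2*i+1) ≤ (1/2)^l2 := pow_le_pow_of_le_one (by norm_num) (by norm_num) (by omega)
  linarith


/-- The key theorem. -/
theorem no_proj (u : V →L[ℝ] V) (huu : u.comp u = u)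
    (hfin : FiniteDimensional ℝ (LinearMap.range (u : V →ₗ[ℝ] V))) (hn : ‖u‖ ≤ 1)
    (f g : V) (hf : u f = f) (hg : u g = g)
    (hD : ev 0 (toE f) * ev 1 (toE g) - ev 1 (toE f) * ev 0 (toE g) ≠ 0) : False := by
  have hk := ker_infdim u hfin
  have hPle : ∀ v : V, ‖u v‖ ≤ ‖v‖ := by
    intro v
    have h1 := u.le_opNorm v
    have h2 : ‖u‖ * ‖v‖ ≤ 1 * ‖v‖ := by gcongr
    linarith
  have hfne : toE f ≠ 0 := by
    intro h; apply hD; rw [h]; simp
  -- minimal peak set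
  let S : Set ℕ := {c | ∃ v : V, u v = v ∧ toE v ≠ 0 ∧ (Pk (toE v)).ncard = c}
  have hS : S.Nonempty := ⟨_, f, hf, hfne, rfl⟩
  obtain ⟨w', hw'u, hw'0, hw'c⟩ : sInf S ∈ S := Nat.sInf_mem hS
  have hp : 0 < ‖toE w'‖ := norm_pos_iff.mpr hw'0
  obtain ⟨w0, hw0⟩ : ∃ w0 : V, w0 = ‖toE w'‖⁻¹ • w' := ⟨_, rfl⟩
  have hw0u : u w0 = w0 := by rw [hw0, map_smul, hw'u]
  have hw01 : ‖toE w0‖ = 1 := by
    rw [hw0, map_smul, norm_smul, norm_inv, norm_norm, inv_mul_cancel₀ hp.ne']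
  have hw0c : (Pk (toE w0)).ncard = sInf S := by
    rw [hw0, map_smul, Pk_smul _ (inv_ne_zero hp.ne'), hw'c]
  have hw00 : toE w0 ≠ 0 := by
    intro h; rw [h, norm_zero] at hw01; exact zero_ne_one hw01
  obtain ⟨x0, hx0⟩ := Pk_nonempty _ hw00
  obtain ⟨η, hη, hη4, hgap⟩ := gap _ hw01
  -- y
  obtain ⟨y1, hy1u, hy10, hy1x⟩ : ∃ y : V, u y = y ∧ toE y ≠ 0 ∧ ev x0 (toE y) = 0 := by
    by_cases h0 : ev x0 (toE f) = 0
    · exact ⟨f, hf, hfne, h0⟩
    · refine ⟨ev x0 (toE g) • f - ev x0 (toE f) • g, ?_, ?_, ?_⟩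
      · rw [map_sub, map_smul, map_smul, hf, hg]
      · intro h
        rw [map_sub, map_smul, map_smul] at h
        have e0 := congrArg (ev 0) h
        have e1 := congrArg (ev 1) h
        simp only [map_sub, map_smul, smul_eq_mul, map_zero] at e0 e1
        apply hD
        have : ev x0 (toE f) * (ev 0 (toE f) * ev 1 (toE g) - ev 1 (toE f) * ev 0 (toE g)) = 0 := by
          linear_combination (ev 1 (toE f)) * e0 - (ev 0 (toE f)) * e1
        rcases mul_eq_zero.mp this with h' | h'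
        · exact absurd h' h0
        · exact h'
      · rw [map_sub, map_smul, map_smul, map_sub, map_smul, map_smul, smul_eq_mul, smul_eq_mul]; ring
  have hy1p : 0 < ‖toE y1‖ := norm_pos_iff.mpr hy10
  obtain ⟨y, hy⟩ : ∃ y : V, y = (4 * η * ‖toE y1‖⁻¹) • y1 := ⟨_, rfl⟩
  have hyu : u y = y := by rw [hy, map_smul, hy1u]
  have hyn : ‖toE y‖ = 4 * η := by
    rw [hy, map_smul, norm_smul, Real.norm_of_nonneg (by positivity), mul_assoc, inv_mul_cancel₀ hy1p.ne', mul_one]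
  have hyx : ev x0 (toE y) = 0 := by rw [hy, map_smul, map_smul, hy1x, smul_zero]
  obtain ⟨z1, hz1k, hz10, hz1A⟩ := vanish _ hk (Pk (toE w0)) (Pk_finite _ hw00)
  have hz1p : 0 < ‖toE z1‖ := norm_pos_iff.mpr hz10
  obtain ⟨z, hz⟩ : ∃ z : V, z = (4 * η * ‖toE z1‖⁻¹) • z1 := ⟨_, rfl⟩
  have hz1u : u z1 = 0 := hz1k
  have hzu : u z = 0 := by rw [hz, map_smul, hz1u, smul_zero]
  have hzn : ‖toE z‖ = 4 * η := by
    rw [hz, map_smul, norm_smul, Real.norm_of_nonneg (by positivity), mul_assoc, inv_mul_cancel₀ hz1p.ne', mul_one]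
  have hzA : ∀ x ∈ Pk (toE w0), ev x (toE z) = 0 := by
    intro x hx
    rw [hz, map_smul, map_smul, hz1A x hx, smul_zero]
  have hyb : ∀ x (t : ℝ), |t| ≤ 1/16 → |t * ev x (toE y)| ≤ η/4 := by
    intro x t ht
    have h1 := ev_le x (toE y)
    rw [hyn] at h1
    rw [abs_mul]
    calc |t| * |ev x (toE y)| ≤ 1/16 * (4 * η) := by gcongr
      _ = η/4 := by ring
  have hzb : ∀ x (t : ℝ), |t| ≤ 1/16 → |t * ev x (toE z)| ≤ η/4 := by
    intro x t ht
    have h1 := ev_le x (toE z)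
    rw [hzn] at h1
    rw [abs_mul]
    calc |t| * |ev x (toE z)| ≤ 1/16 * (4 * η) := by gcongr
      _ = η/4 := by ring
  have hevy : ∀ x (t : ℝ), ev x (toE (w0 + t • y)) = ev x (toE w0) + t * ev x (toE y) := by
    intro x t
    rw [map_add, map_smul, map_add, map_smul, smul_eq_mul]
  -- flatness in direction y
  have hx0v : |ev x0 (toE w0)| = 1 := by
    have : |ev x0 (toE w0)| = ‖toE w0‖ := hx0
    rw [this, hw01]
  have hflaty : ∀ t : ℝ, |t| ≤ 1/16 → ‖toE (w0 + t • y)‖ = 1 := by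
    intro t ht
    have hlow : 1 ≤ ‖toE (w0 + t • y)‖ := by
      have h1 := ev_le x0 (toE (w0 + t • y))
      rw [hevy, hyx, mul_zero, add_zero, hx0v] at h1
      exact h1
    have hne : toE (w0 + t • y) ≠ 0 := by
      intro h; rw [h, norm_zero] at hlow; linarith
    have hsub : Pk (toE (w0 + t • y)) ⊆ Pk (toE w0) := by
      intro x hx
      by_contra hc
      have h1 := hgap x hc
      have h2 : |ev x (toE (w0 + t • y))| = ‖toE (w0 + t • y)‖ := hx
      rw [hevy] at h2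
      have h3 := abs_add_le (ev x (toE w0)) (t * ev x (toE y))
      have h4 := hyb x t ht
      linarith
    have hcard : (Pk (toE w0)).ncard ≤ (Pk (toE (w0 + t • y))).ncard := by
      rw [hw0c]
      apply Nat.sInf_le
      refine ⟨w0 + t • y, ?_, hne, rfl⟩
      rw [map_add, map_smul, hw0u, hyu]
    have heq := Set.eq_of_subset_of_ncard_le hsub hcard (Pk_finite _ hw00)
    have hx0' : x0 ∈ Pk (toE (w0 + t • y)) := by rw [heq]; exact hx0
    have h5 : |ev x0 (toE (w0 + t • y))| = ‖toE (w0 + t • y)‖ := hx0'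
    rw [← h5, hevy, hyx, mul_zero, add_zero, hx0v]
  have hflat : ∀ t e : ℝ, |t| ≤ 1/16 → |e| ≤ 1/16 → ‖toE (w0 + t • y + e • z)‖ = 1 := by
    intro t e ht he
    have hval : ∀ x, ev x (toE (w0 + t • y + e • z)) = ev x (toE (w0 + t • y)) + e * ev x (toE z) := by
      intro x
      rw [map_add, map_smul, map_add, map_smul, smul_eq_mul]
    apply le_antisymm
    · apply norm_le_of_ev _ 1 zero_le_one
      intro x
      by_cases hx : x ∈ Pk (toE w0)
      · rw [hval, hzA x hx, mul_zero, add_zero]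
        exact (ev_le x _).trans (hflaty t ht).le
      · have h1 := hgap x hx
        rw [hval, hevy]
        have a1 := hyb x t ht
        have a2 := hzb x e he
        have a3 := abs_add_le (ev x (toE w0) + t * ev x (toE y)) (e * ev x (toE z))
        have a4 := abs_add_le (ev x (toE w0)) (t * ev x (toE y))
        linarith
    · have h1 := ev_le x0 (toE (w0 + t • y + e • z))
      rw [hval, hevy, hyx, hzA x0 hx0, mul_zero, mul_zero, add_zero, add_zero, hx0v] at h1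
      exact h1
  have hη1 : 4 * η ≤ 1 := by linarith
  have hmain := main_est (fun k => psi k (toE w0)) (fun k => psi k (toE y)) (fun k => psi k (toE z))
    (fun k => (psi_le k _).trans hw01.le) (fun k => (psi_le k _).trans (hyn.le.trans hη1)) (fun k => (psi_le k _).trans (hzn.le.trans hη1))
    (by
      intro t e ht he
      have h1 := hPle (w0 + t • y + e • z)
      have h2 : u (w0 + t • y + e • z) = w0 + t • y := by
        rw [map_add, map_add, map_smul, map_smul, hw0u, hyu, hzu, smul_zero, add_zero]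
      rw [h2, normV, normV, NN_unit psi psi_le _ (hflat t e ht he), NN_unit psi psi_le _ (hflaty t ht)] at h1
      have h4 : ∀ k, psi k (toE (w0 + t • y)) = psi k (toE w0) + t * psi k (toE y) := fun k => by
        rw [map_add, map_add, map_smul, map_smul, smul_eq_mul]
      have h5 : ∀ k, psi k (toE (w0 + t • y + e • z)) = psi k (toE w0) + t * psi k (toE y) + e * psi k (toE z) := fun k => by
        rw [map_add, map_add, map_smul, map_smul, smul_eq_mul, h4]
      simp only [h4, h5] at h1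
      linarith)
  have hpair : ∀ s s' : ℕ, (ev s (toE z) + ev s' (toE z) = 0) ∨ (ev s (toE y) + ev s' (toE y) = 0) := by
    intro s s'
    obtain ⟨j, hj⟩ := enum_surj (s, s')
    have hps : ∀ l (F : EE), psi (Nat.pair j l) F = 1/2 * (ev s F + ev s' F) := by
      intro l F
      rw [psi_apply, p1, p2, Nat.unpair_pair, hj]
    have := limit_arg (1/2 * (ev s (toE y) + ev s' (toE y))) (1/2 * (ev s (toE z) + ev s' (toE z))) (by
      intro l
      refine ⟨Nat.pair j l, Nat.right_le_pair j l, ?_⟩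
      have := hmain (Nat.pair j l)
      simp only [hps] at this
      exact this)
    rcases this with h | h
    · left; linarith
    · right; linarith
  have hyne : toE y ≠ 0 := by
    intro h; rw [h, norm_zero] at hyn; linarith
  have hzne : toE z ≠ 0 := by
    intro h; rw [h, norm_zero] at hzn; linarith
  obtain ⟨s, hs⟩ : ∃ s, ev s (toE y) ≠ 0 := by
    by_contra h; push Not at h
    exact hyne (ev_ext _ _ (fun n => by rw [h n, map_zero]))
  obtain ⟨s', hs'⟩ : ∃ s, ev s (toE z) ≠ 0 := by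
    by_contra h; push Not at h
    exact hzne (ev_ext _ _ (fun n => by rw [h n, map_zero]))
  have e1 : ev s (toE z) = 0 := by
    rcases hpair s s with h | h
    · linarith
    · exact absurd (by linarith) hs
  have e2 : ev s' (toE y) = 0 := by
    rcases hpair s' s' with h | h
    · exact absurd (by linarith) hs'
    · linarith
  rcases hpair s s' with h | h
  · rw [e1, zero_add] at h; exact hs' h
  · rw [e2, add_zero] at h; exact hs h

end Pool.Agent.H915.Ren
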