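import Pool.Agent.H915.Ren
set_option autoImplicit false
open Filter Topology

namespace Pool.Agent.H915.Strong
open Pool.Agent.H915.Ren (a a_pos be be_pos be_summable be_tail_tsum a_summable a_summable2 NN NN_ge NN_le NN_smul NN_triangle NN_unit NN_summable term_nonneg limit_arg)

/-! ### trigonometric polynomials -/

def TP (n : ℕ) (L : ℂ) (f : ℝ → ℝ) : Prop :=
  ∃ q : ℕ → ℂ, q n = L ∧ q 0 = (starRingEnd ℂ) L ∧
    ∀ θ : ℝ, (f θ : ℂ) = ∑ l ∈ Finset.range (n+1), q l * Complex.exp ((2*(l:ℂ) - n) * θ * Complex.I)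

lemma TP_one : TP 0 1 (fun _ => 1) := by
  refine ⟨fun _ => 1, rfl, by simp, ?_⟩
  intro θ
  simp

lemma lin_eq (α β θ : ℝ) : ((α * Real.cos θ + β * Real.sin θ : ℝ) : ℂ) =
    ((α - β * Complex.I)/2) * Complex.exp (θ * Complex.I) + (starRingEnd ℂ) ((α - β * Complex.I)/2) * Complex.exp (-(θ * Complex.I)) := by
  have h1 : Complex.exp (θ * Complex.I) = Complex.cos θ + Complex.sin θ * Complex.I := Complex.exp_mul_I _
  have h2 : Complex.exp (-(θ * Complex.I)) = Complex.cos θ - Complex.sin θ * Complex.I := by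
    rw [← neg_mul, Complex.exp_mul_I, Complex.cos_neg, Complex.sin_neg]; ring
  rw [h1, h2]
  simp only [map_div₀, map_sub, map_mul, Complex.conj_ofReal, Complex.conj_I, map_ofNat]
  push_cast
  have hI : Complex.I * Complex.I = -1 := Complex.I_mul_I
  linear_combination ((β:ℂ) * Complex.sin θ) * hI

lemma TP_mul (n : ℕ) (L : ℂ) (f : ℝ → ℝ) (h : TP n L f) (α β : ℝ) :
    TP (n+1) (L * ((α - β * Complex.I)/2)) (fun θ => f θ * (α * Real.cos θ + β * Real.sin θ)) := by
  obtain ⟨q, hn, h0, hf⟩ := h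
  set A : ℂ := (α - β * Complex.I)/2 with hA
  refine ⟨fun l => (if 1 ≤ l then q (l-1) * A else 0) + (if l ≤ n then q l * (starRingEnd ℂ) A else 0), ?_, ?_, ?_⟩
  · simp [hn]
  · simp [h0]
  · intro θ
    push_cast
    have e1 := hf θ
    have e2 := lin_eq α β θ
    rw [← hA] at e2
    push_cast at e2
    rw [e1, e2]
    simp only [add_mul, Finset.sum_add_distrib]
    rw [mul_add, Finset.sum_mul, Finset.sum_mul]
    congr 1
    · rw [Finset.sum_range_succ' (n := n+1)]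
      simp only [Nat.le_add_left, if_true, Nat.add_sub_cancel, nonpos_iff_eq_zero, one_ne_zero, if_false, zero_mul, add_zero]
      apply Finset.sum_congr rfl
      intro l _
      rw [mul_mul_mul_comm, ← Complex.exp_add]
      congr 2
      push_cast
      ring
    · rw [Finset.sum_range_succ (n := n+1)]
      simp only [Nat.succ_le_iff, lt_self_iff_false, if_false, zero_mul, add_zero]
      apply Finset.sum_congr rfl
      intro l hl
      rw [if_pos (Nat.lt_succ_iff.mp (Finset.mem_range.mp hl))]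
      rw [mul_mul_mul_comm, ← Complex.exp_add]
      congr 2
      push_cast
      ring

lemma TP_pow (α β : ℝ) (n : ℕ) : TP n (((α - β * Complex.I)/2)^n) (fun θ => (α * Real.cos θ + β * Real.sin θ)^n) := by
  induction n with
  | zero => simpa using TP_one
  | succ n ih =>
    have := TP_mul n _ _ ih α β
    simpa only [pow_succ] using this

/-- the discrete operator -/
noncomputable def Dm (m : ℕ) (θ0 : ℝ) (f : ℝ → ℝ) : ℝ :=
  ∑ j ∈ Finset.range (2*m), (-1:ℝ)^j * f (θ0 + Real.pi * j / m)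

lemma geom (m : ℕ) (hm : 0 < m) (r : ℕ) :
    ∑ j ∈ Finset.range (2*m), (Complex.exp (2 * Real.pi * Complex.I / ((2*m : ℕ) : ℂ)) ^ r) ^ j = if 2*m ∣ r then ((2*m : ℕ) : ℂ) else 0 := by
  have hp := Complex.isPrimitiveRoot_exp (2*m) (by omega)
  set ζ := Complex.exp (2 * Real.pi * Complex.I / ((2*m : ℕ) : ℂ))
  split_ifs with h
  · have : ζ ^ r = 1 := (hp.pow_eq_one_iff_dvd r).mpr h
    rw [this]; simp
  · have hne : ζ ^ r ≠ 1 := fun h' => h ((hp.pow_eq_one_iff_dvd r).mp h')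
    rw [geom_sum_eq hne]
    rw [← pow_mul, mul_comm r, pow_mul, hp.pow_eq_one, one_pow, sub_self, zero_div]

lemma D_exp (m n l : ℕ) (hm : 0 < m) (hn : n ≤ m) (hl : l ≤ n) (θ0 : ℝ) :
    ∑ j ∈ Finset.range (2*m), (-1:ℂ)^j * Complex.exp ((2*(l:ℂ) - n) * ((θ0 + Real.pi * j / m : ℝ) : ℂ) * Complex.I)
    = Complex.exp ((2*(l:ℂ) - n) * θ0 * Complex.I) * (if 2*m ∣ 2*l + (m-n) then ((2*m : ℕ) : ℂ) else 0) := by
  rw [← geom m hm, Finset.mul_sum]
  apply Finset.sum_congr rfl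
  intro j _
  have h1 : (-1:ℂ)^j = Complex.exp (Real.pi * Complex.I) ^ j := by rw [Complex.exp_pi_mul_I]
  rw [h1, ← Complex.exp_nat_mul, ← Complex.exp_nat_mul, ← Complex.exp_nat_mul, ← Complex.exp_add, ← Complex.exp_add]
  congr 1
  push_cast [Nat.cast_sub hn]
  have hm' : (m:ℂ) ≠ 0 := by exact_mod_cast hm.ne'
  field_simp
  ring

lemma D_TP_lt (m n : ℕ) (hm : 0 < m) (hn : n < m) (L : ℂ) (f : ℝ → ℝ) (h : TP n L f) (θ0 : ℝ) : Dm m θ0 f = 0 := by
  obtain ⟨q, _, _, hf⟩ := h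
  have : ((Dm m θ0 f : ℝ) : ℂ) = 0 := by
    unfold Dm
    push_cast
    have : ∀ j ∈ Finset.range (2*m), (-1:ℂ)^j * (f (θ0 + Real.pi * j / m) : ℂ) =
        ∑ l ∈ Finset.range (n+1), q l * ((-1:ℂ)^j * Complex.exp ((2*(l:ℂ) - n) * ((θ0 + Real.pi * j / m : ℝ) : ℂ) * Complex.I)) := by
      intro j _
      rw [hf, Finset.mul_sum]
      apply Finset.sum_congr rfl
      intro l _
      ring
    rw [Finset.sum_congr rfl this, Finset.sum_comm]
    apply Finset.sum_eq_zero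
    intro l hl
    have hl' : l ≤ n := Nat.lt_succ_iff.mp (Finset.mem_range.mp hl)
    rw [← Finset.mul_sum, D_exp m n l hm hn.le hl', if_neg, mul_zero, mul_zero]
    intro hd
    have h1 := Nat.le_of_dvd (by omega) hd
    omega
  exact_mod_cast this

lemma D_TP_eq (m : ℕ) (hm : 0 < m) (L : ℂ) (f : ℝ → ℝ) (h : TP m L f) (θ0 : ℝ) :
    Dm m θ0 f = 4 * m * (L * Complex.exp (m * θ0 * Complex.I)).re := by
  obtain ⟨q, hqm, hq0, hf⟩ := h
  have : ((Dm m θ0 f : ℝ) : ℂ) = ((4 * m * (L * Complex.exp (m * θ0 * Complex.I)).re : ℝ) : ℂ) := by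
    unfold Dm
    push_cast
    have : ∀ j ∈ Finset.range (2*m), (-1:ℂ)^j * (f (θ0 + Real.pi * j / m) : ℂ) =
        ∑ l ∈ Finset.range (m+1), q l * ((-1:ℂ)^j * Complex.exp ((2*(l:ℂ) - m) * ((θ0 + Real.pi * j / m : ℝ) : ℂ) * Complex.I)) := by
      intro j _
      rw [hf, Finset.mul_sum]
      apply Finset.sum_congr rfl
      intro l _
      ring
    rw [Finset.sum_congr rfl this, Finset.sum_comm]
    have h2 : ∀ l ∈ Finset.range (m+1), ∑ j ∈ Finset.range (2*m), q l * ((-1:ℂ)^j * Complex.exp ((2*(l:ℂ) - m) * ((θ0 + Real.pi * j / m : ℝ) : ℂ) * Complex.I))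
        = q l * (Complex.exp ((2*(l:ℂ) - m) * θ0 * Complex.I) * (if 2*m ∣ 2*l then ((2*m : ℕ) : ℂ) else 0)) := by
      intro l hl
      have hl' : l ≤ m := Nat.lt_succ_iff.mp (Finset.mem_range.mp hl)
      rw [← Finset.mul_sum, D_exp m m l hm le_rfl hl', Nat.sub_self, add_zero]
    rw [Finset.sum_congr rfl h2]
    have hz : ∀ l ∈ Finset.range (m+1), l ≠ 0 → l ≠ m → q l * (Complex.exp ((2*(l:ℂ) - m) * θ0 * Complex.I) * (if 2*m ∣ 2*l then ((2*m : ℕ) : ℂ) else 0)) = 0 := by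
      intro l hl h0 h1
      rw [if_neg, mul_zero, mul_zero]
      intro hd
      have h3 := Nat.le_of_dvd (by omega) hd
      have := Finset.mem_range.mp hl
      omega
    rw [Finset.sum_range_succ, Finset.sum_eq_single_of_mem 0 (Finset.mem_range.mpr hm)]
    · rw [if_pos (show 2*m ∣ 2*0 by simp), if_pos (dvd_refl _), hqm, hq0]
      have e1 : (2*((0:ℕ):ℂ) - m) * θ0 * Complex.I = -(m * θ0 * Complex.I) := by push_cast; ring
      have e2 : (2*((m:ℕ):ℂ) - m) * θ0 * Complex.I = m * θ0 * Complex.I := by ring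
      rw [e1, e2]
      have e3 : Complex.exp (-(m * θ0 * Complex.I)) = (starRingEnd ℂ) (Complex.exp (m * θ0 * Complex.I)) := by
        rw [← Complex.exp_conj]
        congr 1
        simp
      rw [e3]
      have e4 : (starRingEnd ℂ) L * ((starRingEnd ℂ) (Complex.exp (m * θ0 * Complex.I)) * ((2*m : ℕ) : ℂ)) + L * (Complex.exp (m * θ0 * Complex.I) * ((2*m : ℕ) : ℂ))
          = ((2*m : ℕ) : ℂ) * (L * Complex.exp (m * θ0 * Complex.I) + (starRingEnd ℂ) (L * Complex.exp (m * θ0 * Complex.I))) := by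
        rw [map_mul]; ring
      rw [e4, Complex.add_conj]
      push_cast
      ring
    · intro l hl h0
      exact hz l (Finset.mem_range.mpr (by have := Finset.mem_range.mp hl; omega)) h0 (by have := Finset.mem_range.mp hl; omega)
  exact_mod_cast this

lemma D_TP_max (m : ℕ) (hm : 0 < m) (L : ℂ) (f : ℝ → ℝ) (h : TP m L f) :
    ∃ θ0 : ℝ, Dm m θ0 f = 4 * m * ‖L‖ := by
  refine ⟨-(Complex.arg L)/m, ?_⟩
  rw [D_TP_eq m hm L f h]
  congr 1
  have hm' : (m:ℂ) ≠ 0 := by exact_mod_cast hm.ne'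
  have e : (m:ℂ) * ((-(Complex.arg L)/m : ℝ) : ℂ) * Complex.I = -(Complex.arg L * Complex.I) := by
    push_cast
    field_simp
  rw [e]
  have h1 : L = ‖L‖ * Complex.exp (Complex.arg L * Complex.I) := (Complex.norm_mul_exp_arg_mul_I L).symm
  have h2 : L * Complex.exp (-(Complex.arg L * Complex.I)) = ‖L‖ := by
    calc L * Complex.exp (-(Complex.arg L * Complex.I))
        = (‖L‖ * Complex.exp (Complex.arg L * Complex.I)) * Complex.exp (-(Complex.arg L * Complex.I)) := by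
          rw [Complex.norm_mul_exp_arg_mul_I]
      _ = ‖L‖ := by rw [mul_assoc, ← Complex.exp_add, add_neg_cancel, Complex.exp_zero, mul_one]
  have h3 : L * Complex.exp (-(↑(Complex.arg L) * Complex.I)) = ‖L‖ := h2
  rw [h3, Complex.ofReal_re]

lemma Dm_abs_le (m : ℕ) (θ0 : ℝ) (f : ℝ → ℝ) (C : ℝ) (hf : ∀ θ, |f θ| ≤ C) : |Dm m θ0 f| ≤ 2 * m * C := by
  unfold Dm
  calc |∑ j ∈ Finset.range (2*m), (-1:ℝ)^j * f (θ0 + Real.pi * j / m)|
      ≤ ∑ j ∈ Finset.range (2*m), |(-1:ℝ)^j * f (θ0 + Real.pi * j / m)| := Finset.abs_sum_le_sum_abs _ _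
    _ ≤ ∑ j ∈ Finset.range (2*m), C := by
        apply Finset.sum_le_sum
        intro j _
        rw [abs_mul, abs_pow, abs_neg, abs_one, one_pow, one_mul]
        exact hf _
    _ = 2 * m * C := by rw [Finset.sum_const, Finset.card_range, nsmul_eq_mul]; push_cast; ring

end Pool.Agent.H915.Strong
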