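import Pool.Agent.H915.StrongA

set_option autoImplicit false
open Filter Topology

namespace Pool.Agent.H915.Strong
open Pool.Agent.H915.Ren (a a_pos be be_pos be_summable be_tail_tsum a_le_be a_summable a_summable2 NN NN_ge NN_le NN_smul NN_triangle NN_unit NN_summable term_nonneg limit_arg)

/-! ### derivative -/

lemma a_43 (k : ℕ) : a k * (4*(k:ℝ)+4) ≤ be k / 2 := by
  have := a_le_be k
  linarith

lemma N_lower (p e : ℝ) (hp : |p| ≤ 1) (he : |e| < 1/2) : 1/4 ≤ 1 + 2*e*p + e^2 := by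
  have h1 : |e * p| ≤ |e| := by
    rw [abs_mul]
    calc |e| * |p| ≤ |e| * 1 := by gcongr
      _ = |e| := mul_one _
  have h2 := neg_abs_le (e*p)
  have h3 : e^2 = |e|^2 := (sq_abs e).symm
  have h4 := abs_nonneg e
  nlinarith

lemma deriv_zero (p : ℝ) (W C : ℕ → ℝ) (hp : |p| ≤ 1) (hC : ∀ k, |C k| ≤ 1)
    (hb : ∀ k e, |W k + e * C k| ≤ Real.sqrt (1 + 2*e*p + e^2))
    (H : ∀ e : ℝ, Real.sqrt (1 + 2*0*p + 0^2) + ∑' k, a k * (Real.sqrt (1 + 2*0*p + 0^2) * ((W k + 0 * C k) / Real.sqrt (1 + 2*0*p + 0^2))^(2*k+2))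
      ≤ Real.sqrt (1 + 2*e*p + e^2) + ∑' k, a k * (Real.sqrt (1 + 2*e*p + e^2) * ((W k + e * C k) / Real.sqrt (1 + 2*e*p + e^2))^(2*k+2))) :
    p + ∑' k, a k * ((2*(k:ℝ)+2) * (C k * (W k)^(2*k+1)) - (2*(k:ℝ)+1) * ((W k)^(2*k+2) * p)) = 0 := by
  set N : ℝ → ℝ := fun e => Real.sqrt (1 + 2*e*p + e^2) with hN
  have hNpos : ∀ e : ℝ, |e| < 1/2 → 0 < N e := by
    intro e he
    exact Real.sqrt_pos.mpr (by have := N_lower p e hp he; linarith)
  have hN0 : N 0 = 1 := by simp [hN]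
  have hNd : ∀ e : ℝ, |e| < 1/2 → HasDerivAt N ((p+e)/N e) e := by
    intro e he
    have h1 : HasDerivAt (fun e : ℝ => 1 + 2*e*p + e^2) (2*p + 2*e) e := by
      have h2 : HasDerivAt (fun e : ℝ => 2*e*p) (2*p) e := by
        simpa using ((hasDerivAt_id e).const_mul 2).mul_const p
      have h3 : HasDerivAt (fun e : ℝ => e^2) (2*e) e := by
        simpa using hasDerivAt_pow 2 e
      exact (h2.const_add 1).add h3
    have h4 := h1.sqrt (by have := N_lower p e hp he; linarith)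
    have h5 : (2*p + 2*e) / (2 * Real.sqrt (1 + 2*e*p + e^2)) = (p+e)/N e := by
      have := hNpos e he
      simp only [hN] at this ⊢
      field_simp
    rw [h5] at h4
    exact h4
  have hNd1 : ∀ e : ℝ, |e| < 1/2 → |(p+e)/N e| ≤ 1 := by
    intro e he
    rw [abs_div, abs_of_pos (hNpos e he)]
    apply div_le_one_of_le₀ _ (hNpos e he).le
    apply Real.le_sqrt_of_sq_le
    rw [sq_abs]
    have : p^2 ≤ 1 := by rw [← sq_abs]; nlinarith [abs_nonneg p]
    nlinarith
  have hderiv : HasDerivAt (fun e : ℝ => ∑' k, a k * (N e * ((W k + e * C k) / N e)^(2*k+2)))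
      (∑' k, a k * ((2*(k:ℝ)+2) * (C k * ((W k + 0 * C k) / N 0)^(2*k+1)) - (2*(k:ℝ)+1) * (((W k + 0 * C k) / N 0)^(2*k+2) * ((p+0)/N 0)))) 0 := by
    apply hasDerivAt_tsum_of_isPreconnected (u := be) (t := Metric.ball (0:ℝ) (1/2)) (y₀ := 0)
      (g := fun k (e:ℝ) => a k * (N e * ((W k + e * C k) / N e)^(2*k+2)))
      (g' := fun k (e:ℝ) => a k * ((2*(k:ℝ)+2) * (C k * ((W k + e * C k) / N e)^(2*k+1)) - (2*(k:ℝ)+1) * (((W k + e * C k) / N e)^(2*k+2) * ((p+e)/N e))))
    · exact be_summable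
    · exact Metric.isOpen_ball
    · exact (convex_ball _ _).isPreconnected
    · intro k e he
      have he' : |e| < 1/2 := by simpa using he
      have hne := (hNpos e he').ne'
      have h1 : HasDerivAt (fun e : ℝ => W k + e * C k) (C k) e := by
        simpa using ((hasDerivAt_id e).mul_const (C k)).const_add (W k)
      have h2 := h1.div (hNd e he') hne
      have h3 := ((hNd e he').mul (h2.pow (2*k+2))).const_mul (a k)
      have e1 : 2*k+2-1 = 2*k+1 := by omega
      refine h3.congr_deriv ?_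
      simp only [Pi.div_apply, Pi.pow_apply, e1]
      push_cast
      have e2 : ((W k + e * C k) / N e)^(2*k+2) = ((W k + e * C k) / N e)^(2*k+1) * ((W k + e * C k) / N e) := pow_succ _ _
      rw [e2]
      field_simp
      ring
    · intro k e he
      have he' : |e| < 1/2 := by simpa using he
      have h1 : |(W k + e * C k) / N e| ≤ 1 := by
        rw [abs_div, abs_of_pos (hNpos e he')]
        exact div_le_one_of_le₀ (hb k e) (hNpos e he').le
      have ha := a_pos k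
      have hk : (0:ℝ) ≤ k := Nat.cast_nonneg k
      have h2 := hNd1 e he'
      rw [Real.norm_eq_abs, abs_mul, abs_of_pos ha]
      have h3 : |(2*(k:ℝ)+2) * (C k * ((W k + e * C k) / N e)^(2*k+1)) - (2*(k:ℝ)+1) * (((W k + e * C k) / N e)^(2*k+2) * ((p+e)/N e))| ≤ 4*(k:ℝ)+4 := by
        refine (abs_sub _ _).trans ?_
        rw [abs_mul, abs_mul, abs_mul, abs_mul, abs_pow, abs_pow, abs_of_pos (by positivity : (0:ℝ) < 2*(k:ℝ)+2), abs_of_pos (by positivity : (0:ℝ) < 2*(k:ℝ)+1)]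
        have h4 : |(W k + e * C k) / N e|^(2*k+1) ≤ 1 := pow_le_one₀ (abs_nonneg _) h1
        have h5 : |(W k + e * C k) / N e|^(2*k+2) ≤ 1 := pow_le_one₀ (abs_nonneg _) h1
        have h6 : |C k| * |(W k + e * C k) / N e|^(2*k+1) ≤ 1 := mul_le_one₀ (hC k) (by positivity) h4
        have h7 : |(W k + e * C k) / N e|^(2*k+2) * |(p+e)/N e| ≤ 1 := mul_le_one₀ h5 (abs_nonneg _) h2
        calc (2*(k:ℝ)+2) * (|C k| * |(W k + e * C k) / N e|^(2*k+1)) + (2*(k:ℝ)+1) * (|(W k + e * C k) / N e|^(2*k+2) * |(p+e)/N e|)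
            ≤ (2*(k:ℝ)+2) * 1 + (2*(k:ℝ)+1) * 1 := by gcongr
          _ ≤ 4*(k:ℝ)+4 := by linarith
      calc a k * |(2*(k:ℝ)+2) * (C k * ((W k + e * C k) / N e)^(2*k+1)) - (2*(k:ℝ)+1) * (((W k + e * C k) / N e)^(2*k+2) * ((p+e)/N e))|
          ≤ a k * (4*(k:ℝ)+4) := by gcongr
        _ ≤ be k / 2 := a_43 k
        _ ≤ be k := by have := be_pos k; linarith
    · simp
    · simp only [zero_mul, add_zero]
      apply Summable.of_norm_bounded be_summable
      intro k
      have ha := a_pos k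
      have h1 : |W k / N 0| ≤ 1 := by
        have := hb k 0
        rw [zero_mul, add_zero] at this
        rw [abs_div, abs_of_pos (hNpos 0 (by norm_num))]
        exact div_le_one_of_le₀ this (hNpos 0 (by norm_num)).le
      rw [Real.norm_eq_abs, abs_mul, abs_mul, abs_pow, abs_of_pos ha, hN0, abs_one, one_mul]
      rw [hN0] at h1
      have h4 : |W k / 1|^(2*k+2) ≤ 1 := pow_le_one₀ (abs_nonneg _) h1
      have hk : (0:ℝ) ≤ k := Nat.cast_nonneg k
      calc a k * |W k / 1|^(2*k+2) ≤ a k * 1 := by gcongr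
        _ ≤ a k * (4*(k:ℝ)+4) := by gcongr; linarith
        _ ≤ be k / 2 := a_43 k
        _ ≤ be k := by have := be_pos k; linarith
    · simp
  have htot := (hNd 0 (by norm_num)).add hderiv
  have hmin : IsLocalMin (fun e : ℝ => N e + ∑' k, a k * (N e * ((W k + e * C k) / N e)^(2*k+2))) 0 := by
    rw [IsLocalMin, IsMinFilter]
    exact Filter.Eventually.of_forall (fun e => H e)
  have hfin := hmin.hasDerivAt_eq_zero htot
  simpa [hN0] using hfin

/-! ### the discrete operator applied to the identity -/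

lemma Dm_tsum (m i : ℕ) (θ0 : ℝ) (q : ℝ → ℝ) (h : ℕ → ℝ → ℝ) (hh : ∀ k θ, |h k θ| ≤ 4*(k:ℝ)+4)
    (H : ∀ θ, q θ + ∑' k, a k * h k θ = 0) (hq : Dm m θ0 q = 0) (hk : ∀ k < i, Dm m θ0 (h k) = 0) :
    |Dm m θ0 (h i)| ≤ 2 * m * ((2*(i:ℝ)+1)^(2*(2*i+1)))⁻¹ := by
  have hsum : ∀ θ, Summable (fun k => a k * h k θ) := by
    intro θ
    apply Summable.of_norm_bounded be_summable
    intro k
    have ha := a_pos k
    rw [Real.norm_eq_abs, abs_mul, abs_of_pos ha]
    calc a k * |h k θ| ≤ a k * (4*(k:ℝ)+4) := by gcongr; exact hh k θ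
      _ ≤ be k / 2 := a_43 k
      _ ≤ be k := by have := be_pos k; linarith
  have hzero : ∑' k, a k * Dm m θ0 (h k) = 0 := by
    have h1 : ∀ k, a k * Dm m θ0 (h k) = ∑ j ∈ Finset.range (2*m), (-1:ℝ)^j * (a k * h k (θ0 + Real.pi * j / m)) := by
      intro k
      unfold Dm
      rw [Finset.mul_sum]
      apply Finset.sum_congr rfl
      intro j _
      ring
    simp_rw [h1]
    rw [Summable.tsum_finsetSum (fun j _ => (hsum _).mul_left _)]
    have h2 : ∀ j ∈ Finset.range (2*m), ∑' k, (-1:ℝ)^j * (a k * h k (θ0 + Real.pi * j / m)) = - ((-1:ℝ)^j * q (θ0 + Real.pi * j / m)) := by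
      intro j _
      rw [tsum_mul_left]
      have := H (θ0 + Real.pi * j / m)
      have h3 : ∑' k, a k * h k (θ0 + Real.pi * j / m) = - q (θ0 + Real.pi * j / m) := by linarith
      rw [h3]; ring
    rw [Finset.sum_congr rfl h2, Finset.sum_neg_distrib, neg_eq_zero]
    exact hq
  have hb : ∀ k, |a k * Dm m θ0 (h k)| ≤ m * be k := by
    intro k
    have ha := a_pos k
    rw [abs_mul, abs_of_pos ha]
    calc a k * |Dm m θ0 (h k)| ≤ a k * (2 * m * (4*(k:ℝ)+4)) := by
          gcongr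
          exact Dm_abs_le m θ0 (h k) _ (hh k)
      _ = 2 * m * (a k * (4*(k:ℝ)+4)) := by ring
      _ ≤ 2 * m * (be k / 2) := by
          gcongr
          exact a_43 k
      _ = m * be k := by ring
  have hsumD : Summable (fun k => a k * Dm m θ0 (h k)) :=
    Summable.of_norm_bounded (be_summable.mul_left (m:ℝ)) (fun k => hb k)
  have hsplit := hsumD.sum_add_tsum_nat_add (i+1)
  rw [hzero, Finset.sum_range_succ, Finset.sum_eq_zero, zero_add] at hsplit
  swap
  · intro k hk'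
    rw [hk k (Finset.mem_range.mp hk'), mul_zero]
  have hs1 : Summable (fun j => be (i+1+j)) := by
    have := (summable_nat_add_iff (i+1)).mpr be_summable
    simpa [add_comm] using this
  have htail : |∑' k, a (k+(i+1)) * Dm m θ0 (h (k+(i+1)))| ≤ m * (2 * a i * ((2*(i:ℝ)+1)^(2*(2*i+1)))⁻¹) := by
    rw [← Real.norm_eq_abs]
    have hb2 : ∀ k, ‖a (k+(i+1)) * Dm m θ0 (h (k+(i+1)))‖ ≤ m * be (i+1+k) := by
      intro k
      rw [show i+1+k = k+(i+1) by ring]
      exact hb _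
    refine (tsum_of_norm_bounded (hs1.mul_left (m:ℝ)).hasSum hb2).trans ?_
    rw [tsum_mul_left]
    have := be_tail_tsum i
    gcongr
  have hlead : a i * Dm m θ0 (h i) = - ∑' k, a (k+(i+1)) * Dm m θ0 (h (k+(i+1))) := by linarith
  have ha := a_pos i
  have habs : a i * |Dm m θ0 (h i)| ≤ a i * (2 * m * ((2*(i:ℝ)+1)^(2*(2*i+1)))⁻¹) := by
    have : a i * |Dm m θ0 (h i)| = |a i * Dm m θ0 (h i)| := by rw [abs_mul, abs_of_pos ha]
    rw [this, hlead, abs_neg]
    refine htail.trans (le_of_eq ?_)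
    ring
  exact le_of_mul_le_mul_left habs ha

lemma Dm_sub (m : ℕ) (θ0 : ℝ) (c d : ℝ) (f g : ℝ → ℝ) :
    Dm m θ0 (fun θ => c * f θ - d * g θ) = c * Dm m θ0 f - d * Dm m θ0 g := by
  unfold Dm
  rw [Finset.mul_sum, Finset.mul_sum, ← Finset.sum_sub_distrib]
  apply Finset.sum_congr rfl
  intro j _
  ring

end Pool.Agent.H915.Strong
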