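import Pool.Agent.H915.StrongB

set_option autoImplicit false
open Filter Topology

namespace Pool.Agent.H915.Strong
open Pool.Agent.H915.Ren (a a_pos be be_pos be_summable be_tail_tsum a_le_be a_summable a_summable2 NN NN_ge NN_le NN_smul NN_triangle NN_unit NN_summable term_nonneg limit_arg)

lemma num_bound (i : ℕ) (j : ℕ) (hj : j ≤ 2*i+3) :
    2^j * ((2*(i:ℝ)+1)^(2*(2*i+1)))⁻¹ ≤ (32/(2*(i:ℝ)+1))^(2*i+1) := by
  rw [div_pow, div_eq_mul_inv]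
  have h1 : (2:ℝ)^j ≤ 32^(2*i+1) := by
    calc (2:ℝ)^j ≤ 2^(5*(2*i+1)) := pow_le_pow_right₀ (by norm_num) (by omega)
      _ = 32^(2*i+1) := by rw [pow_mul]; norm_num
  have h2 : (1:ℝ) ≤ 2*(i:ℝ)+1 := by linarith [Nat.cast_nonneg (α := ℝ) i]
  have h3 : (2*(i:ℝ)+1)^(2*i+1) ≤ (2*(i:ℝ)+1)^(2*(2*i+1)) := pow_le_pow_right₀ h2 (by omega)
  have h4 : 0 < (2*(i:ℝ)+1)^(2*i+1) := by positivity
  gcongr

lemma stage1 (α β c : ℕ → ℝ) (P P' : ℝ) (hc : ∀ k, |c k| ≤ 1)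
    (hu : ∀ k (θ : ℝ), |α k * Real.cos θ + β k * Real.sin θ| ≤ 1)
    (hp : ∀ θ : ℝ, |P * Real.cos θ + P' * Real.sin θ| ≤ 1)
    (H : ∀ θ : ℝ, (P * Real.cos θ + P' * Real.sin θ) + ∑' k, a k * ((2*(k:ℝ)+2) * (c k * (α k * Real.cos θ + β k * Real.sin θ)^(2*k+1))
      - (2*(k:ℝ)+1) * ((α k * Real.cos θ + β k * Real.sin θ)^(2*k+2) * (P * Real.cos θ + P' * Real.sin θ))) = 0) (i : ℕ) :
    (‖(α i - β i * Complex.I : ℂ)‖ * ‖(P - P' * Complex.I : ℂ)‖) * ‖(α i - β i * Complex.I : ℂ)‖^(2*i+1) ≤ (32/(2*(i:ℝ)+1))^(2*i+1) := by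
  have hTP2 : ∀ k : ℕ, TP (2*k+3) (((α k - β k * Complex.I)/2)^(2*k+2) * ((P - P' * Complex.I)/2))
      (fun θ => (α k * Real.cos θ + β k * Real.sin θ)^(2*k+2) * (P * Real.cos θ + P' * Real.sin θ)) :=
    fun k => TP_mul (2*k+2) _ _ (TP_pow (α k) (β k) (2*k+2)) P P'
  obtain ⟨θ0, hθ0⟩ := D_TP_max (2*i+3) (by omega) _ _ (hTP2 i)
  have hlin : ∀ k : ℕ, Dm (2*i+3) θ0 (fun θ => (2*(k:ℝ)+2) * (c k * (α k * Real.cos θ + β k * Real.sin θ)^(2*k+1))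
      - (2*(k:ℝ)+1) * ((α k * Real.cos θ + β k * Real.sin θ)^(2*k+2) * (P * Real.cos θ + P' * Real.sin θ)))
      = ((2*(k:ℝ)+2) * c k) * Dm (2*i+3) θ0 (fun θ => (α k * Real.cos θ + β k * Real.sin θ)^(2*k+1))
        - (2*(k:ℝ)+1) * Dm (2*i+3) θ0 (fun θ => (α k * Real.cos θ + β k * Real.sin θ)^(2*k+2) * (P * Real.cos θ + P' * Real.sin θ)) := by
    intro k
    rw [← Dm_sub]
    congr 1
    funext θ
    ring
  have hmain := Dm_tsum (2*i+3) i θ0 (fun θ => P * Real.cos θ + P' * Real.sin θ)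
    (fun k θ => (2*(k:ℝ)+2) * (c k * (α k * Real.cos θ + β k * Real.sin θ)^(2*k+1))
      - (2*(k:ℝ)+1) * ((α k * Real.cos θ + β k * Real.sin θ)^(2*k+2) * (P * Real.cos θ + P' * Real.sin θ)))
    (by
      intro k θ
      refine (abs_sub _ _).trans ?_
      rw [abs_mul, abs_mul, abs_mul, abs_mul, abs_pow, abs_pow, abs_of_pos (by positivity : (0:ℝ) < 2*(k:ℝ)+2), abs_of_pos (by positivity : (0:ℝ) < 2*(k:ℝ)+1)]
      have h4 : |α k * Real.cos θ + β k * Real.sin θ|^(2*k+1) ≤ 1 := pow_le_one₀ (abs_nonneg _) (hu k θ)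
      have h5 : |α k * Real.cos θ + β k * Real.sin θ|^(2*k+2) ≤ 1 := pow_le_one₀ (abs_nonneg _) (hu k θ)
      have h6 : |c k| * |α k * Real.cos θ + β k * Real.sin θ|^(2*k+1) ≤ 1 := mul_le_one₀ (hc k) (by positivity) h4
      have h7 : |α k * Real.cos θ + β k * Real.sin θ|^(2*k+2) * |P * Real.cos θ + P' * Real.sin θ| ≤ 1 := mul_le_one₀ h5 (abs_nonneg _) (hp θ)
      calc (2*(k:ℝ)+2) * (|c k| * |α k * Real.cos θ + β k * Real.sin θ|^(2*k+1)) + (2*(k:ℝ)+1) * (|α k * Real.cos θ + β k * Real.sin θ|^(2*k+2) * |P * Real.cos θ + P' * Real.sin θ|)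
          ≤ (2*(k:ℝ)+2) * 1 + (2*(k:ℝ)+1) * 1 := by gcongr
        _ ≤ 4*(k:ℝ)+4 := by linarith)
    H
    (by
      have := D_TP_lt (2*i+3) 1 (by omega) (by omega) _ _ (TP_pow P P' 1) θ0
      simpa only [pow_one] using this)
    (by
      intro k hk
      rw [hlin, D_TP_lt (2*i+3) (2*k+1) (by omega) (by omega) _ _ (TP_pow (α k) (β k) (2*k+1)) θ0,
        D_TP_lt (2*i+3) (2*k+3) (by omega) (by omega) _ _ (hTP2 k) θ0, mul_zero, mul_zero, sub_zero])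
  have hmain2 : |Dm (2*i+3) θ0 (fun θ => (2*(i:ℝ)+2) * (c i * (α i * Real.cos θ + β i * Real.sin θ)^(2*i+1))
      - (2*(i:ℝ)+1) * ((α i * Real.cos θ + β i * Real.sin θ)^(2*i+2) * (P * Real.cos θ + P' * Real.sin θ)))| ≤ 2 * ((2*i+3 : ℕ):ℝ) * ((2*(i:ℝ)+1)^(2*(2*i+1)))⁻¹ := hmain
  rw [hlin, D_TP_lt (2*i+3) (2*i+1) (by omega) (by omega) _ _ (TP_pow (α i) (β i) (2*i+1)) θ0, hθ0, mul_zero, zero_sub, abs_neg] at hmain2
  have hm : (0:ℝ) < ((2*i+3 : ℕ):ℝ) := by positivity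
  have hi : (1:ℝ) ≤ 2*(i:ℝ)+1 := by linarith [Nat.cast_nonneg (α := ℝ) i]
  set X := ((2*(i:ℝ)+1)^(2*(2*i+1)))⁻¹ with hX
  have hXpos : 0 < X := by positivity
  rw [norm_mul, norm_pow, norm_div, norm_div, Complex.norm_ofNat, abs_of_nonneg (by positivity)] at hmain2
  set A := ‖(α i - β i * Complex.I : ℂ)‖ with hA
  set B := ‖(P - P' * Complex.I : ℂ)‖ with hB
  have hA0 : 0 ≤ A := norm_nonneg _
  have hB0 : 0 ≤ B := norm_nonneg _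
  have h1 : (A/2)^(2*i+2) * (B/2) ≤ X := by
    have e1 : ((2*i+3 : ℕ):ℝ) * ((A/2)^(2*i+2) * (B/2)) ≤ ((2*i+3 : ℕ):ℝ) * X := by
      have e2 : 1 * (4 * ((2*i+3 : ℕ):ℝ) * ((A/2)^(2*i+2) * (B/2))) ≤ (2*(i:ℝ)+1) * (4 * ((2*i+3 : ℕ):ℝ) * ((A/2)^(2*i+2) * (B/2))) := by gcongr
      have e3 : 0 ≤ ((2*i+3 : ℕ):ℝ) * ((A/2)^(2*i+2) * (B/2)) := by positivity
      nlinarith
    exact le_of_mul_le_mul_left e1 hm
  have h2 : A * B * A^(2*i+1) = 2^(2*i+3) * ((A/2)^(2*i+2) * (B/2)) := by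
    rw [div_pow]
    field_simp
    ring
  rw [h2]
  calc 2^(2*i+3) * ((A/2)^(2*i+2) * (B/2)) ≤ 2^(2*i+3) * X := by gcongr
    _ ≤ _ := num_bound i (2*i+3) le_rfl

lemma stage2 (α β c : ℕ → ℝ) (hc : ∀ k, |c k| ≤ 1)
    (hu : ∀ k (θ : ℝ), |α k * Real.cos θ + β k * Real.sin θ| ≤ 1)
    (H : ∀ θ : ℝ, ∑' k, a k * ((2*(k:ℝ)+2) * (c k * (α k * Real.cos θ + β k * Real.sin θ)^(2*k+1))) = 0) (i : ℕ) :
    |c i| * ‖(α i - β i * Complex.I : ℂ)‖^(2*i+1) ≤ (32/(2*(i:ℝ)+1))^(2*i+1) := by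
  obtain ⟨θ0, hθ0⟩ := D_TP_max (2*i+1) (by omega) _ _ (TP_pow (α i) (β i) (2*i+1))
  have hlin : ∀ k : ℕ, Dm (2*i+1) θ0 (fun θ => (2*(k:ℝ)+2) * (c k * (α k * Real.cos θ + β k * Real.sin θ)^(2*k+1)))
      = ((2*(k:ℝ)+2) * c k) * Dm (2*i+1) θ0 (fun θ => (α k * Real.cos θ + β k * Real.sin θ)^(2*k+1)) := by
    intro k
    unfold Dm
    rw [Finset.mul_sum]
    apply Finset.sum_congr rfl
    intro j _
    ring
  have hmain := Dm_tsum (2*i+1) i θ0 (fun θ => 0)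
    (fun k θ => (2*(k:ℝ)+2) * (c k * (α k * Real.cos θ + β k * Real.sin θ)^(2*k+1)))
    (by
      intro k θ
      rw [abs_mul, abs_mul, abs_pow, abs_of_pos (by positivity : (0:ℝ) < 2*(k:ℝ)+2)]
      have h4 : |α k * Real.cos θ + β k * Real.sin θ|^(2*k+1) ≤ 1 := pow_le_one₀ (abs_nonneg _) (hu k θ)
      have h6 : |c k| * |α k * Real.cos θ + β k * Real.sin θ|^(2*k+1) ≤ 1 := mul_le_one₀ (hc k) (by positivity) h4
      have hk : (0:ℝ) ≤ k := Nat.cast_nonneg k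
      calc (2*(k:ℝ)+2) * (|c k| * |α k * Real.cos θ + β k * Real.sin θ|^(2*k+1))
          ≤ (2*(k:ℝ)+2) * 1 := by gcongr
        _ ≤ 4*(k:ℝ)+4 := by linarith)
    (fun θ => by rw [zero_add]; exact H θ)
    (by unfold Dm; simp)
    (by
      intro k hk
      rw [hlin, D_TP_lt (2*i+1) (2*k+1) (by omega) (by omega) _ _ (TP_pow (α k) (β k) (2*k+1)) θ0, mul_zero])
  have hmain2 : |Dm (2*i+1) θ0 (fun θ => (2*(i:ℝ)+2) * (c i * (α i * Real.cos θ + β i * Real.sin θ)^(2*i+1)))|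
      ≤ 2 * ((2*i+1 : ℕ):ℝ) * ((2*(i:ℝ)+1)^(2*(2*i+1)))⁻¹ := hmain
  rw [hlin, hθ0] at hmain2
  have hm : (0:ℝ) < ((2*i+1 : ℕ):ℝ) := by positivity
  have hi : (1:ℝ) ≤ 2*(i:ℝ)+2 := by linarith [Nat.cast_nonneg (α := ℝ) i]
  set X := ((2*(i:ℝ)+1)^(2*(2*i+1)))⁻¹ with hX
  have hXpos : 0 < X := by positivity
  rw [norm_pow, norm_div, Complex.norm_ofNat, abs_mul, abs_mul, abs_of_pos (by positivity : (0:ℝ) < 2*(i:ℝ)+2), abs_of_nonneg (a := 4 * _ * _) (by positivity)] at hmain2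
  set A := ‖(α i - β i * Complex.I : ℂ)‖ with hA
  have hA0 : 0 ≤ A := norm_nonneg _
  have h1 : |c i| * (A/2)^(2*i+1) ≤ X := by
    have e1 : ((2*i+1 : ℕ):ℝ) * (|c i| * (A/2)^(2*i+1)) ≤ ((2*i+1 : ℕ):ℝ) * X := by
      have e3 : 0 ≤ ((2*i+1 : ℕ):ℝ) * (|c i| * (A/2)^(2*i+1)) := by positivity
      have e2 : 1 * (((2*i+1 : ℕ):ℝ) * (|c i| * (A/2)^(2*i+1))) ≤ (2*(i:ℝ)+2) * (((2*i+1 : ℕ):ℝ) * (|c i| * (A/2)^(2*i+1))) := by gcongr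
      have e4 : (2*(i:ℝ)+2) * |c i| * (4 * ((2*i+1 : ℕ):ℝ) * (A/2)^(2*i+1)) = 4 * ((2*(i:ℝ)+2) * (((2*i+1 : ℕ):ℝ) * (|c i| * (A/2)^(2*i+1)))) := by ring
      rw [e4] at hmain2
      linarith
    exact le_of_mul_le_mul_left e1 hm
  have h2 : |c i| * A^(2*i+1) = 2^(2*i+1) * (|c i| * (A/2)^(2*i+1)) := by
    rw [div_pow]
    field_simp
  rw [h2]
  calc 2^(2*i+1) * (|c i| * (A/2)^(2*i+1)) ≤ 2^(2*i+1) * X := by gcongr
    _ ≤ _ := num_bound i (2*i+1) (by omega)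

end Pool.Agent.H915.Strong
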