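import Pool.Agent.H915.StrongC

set_option autoImplicit false
open Filter Topology

namespace Pool.Agent.H915.Strong
open Pool.Agent.H915.Ren (a a_pos be be_pos be_summable NN NN_ge NN_le NN_smul NN_triangle NN_unit NN_summable limit_arg enum enum_surj p1 p2)

/-! ### the Hilbert space `ℓ_2` -/

def HH : Type := lp (fun _ : ℕ => ℝ) 2
noncomputable instance : NormedAddCommGroup HH := inferInstanceAs (NormedAddCommGroup (lp (fun _ : ℕ => ℝ) 2))
noncomputable instance : InnerProductSpace ℝ HH := inferInstanceAs (InnerProductSpace ℝ (lp (fun _ : ℕ => ℝ) 2))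
instance : CompleteSpace HH := inferInstanceAs (CompleteSpace (lp (fun _ : ℕ => ℝ) 2))

noncomputable def ev (n : ℕ) : HH →ₗ[ℝ] ℝ where
  toFun F := (show lp (fun _ : ℕ => ℝ) 2 from F) n
  map_add' _ _ := rfl
  map_smul' _ _ := rfl

lemma ev_le (n : ℕ) (F : HH) : |ev n F| ≤ ‖F‖ :=
  lp.norm_apply_le_norm (by norm_num) (show lp (fun _ : ℕ => ℝ) 2 from F) n

lemma ev_ext (F G : HH) (h : ∀ n, ev n F = ev n G) : F = G :=
  lp.ext (f := (show lp (fun _ : ℕ => ℝ) 2 from F)) (g := (show lp (fun _ : ℕ => ℝ) 2 from G)) (funext h)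

noncomputable def pt (n : ℕ) : HH := (lp.single 2 n (1:ℝ) : lp (fun _ : ℕ => ℝ) 2)

lemma ev_pt (i n : ℕ) : ev i (pt n) = if i = n then 1 else 0 := by
  show (lp.single 2 n (1:ℝ) : lp (fun _ : ℕ => ℝ) 2) i = _
  rw [lp.single_apply]
  split_ifs with h
  · subst h; simp
  · simp [h]

noncomputable def psi (k : ℕ) : HH →ₗ[ℝ] ℝ := (1/2 : ℝ) • (ev (p1 k) + ev (p2 k))

lemma psi_apply (k : ℕ) (F : HH) : psi k F = (1/2 : ℝ) * (ev (p1 k) F + ev (p2 k) F) := rfl

lemma psi_le (k : ℕ) (F : HH) : |psi k F| ≤ ‖F‖ := by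
  rw [psi_apply, abs_mul]
  have h1 := ev_le (p1 k) F
  have h2 := ev_le (p2 k) F
  have h3 := abs_add_le (ev (p1 k) F) (ev (p2 k) F)
  have h4 : |(1/2:ℝ)| = 1/2 := by norm_num
  rw [h4]
  linarith

/-! ### the renormed space -/

def V : Type := HH
noncomputable instance : AddCommGroup V := inferInstanceAs (AddCommGroup HH)
noncomputable instance : Module ℝ V := inferInstanceAs (Module ℝ HH)

noncomputable def toE : V ≃ₗ[ℝ] HH := LinearEquiv.refl ℝ HH

noncomputable instance : Norm V := ⟨fun F => NN psi (toE F)⟩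

lemma norm_def (F : V) : ‖F‖ = NN psi (toE F) := rfl

lemma coreV : NormedSpace.Core ℝ V where
  norm_nonneg F := (norm_nonneg _).trans (NN_ge psi psi_le (toE F))
  norm_smul c F := by
    rw [norm_def, map_smul, NN_smul psi psi_le c (toE F)]; rfl
  norm_triangle F G := by
    rw [norm_def, map_add]
    exact NN_triangle psi psi_le (toE F) (toE G)
  norm_eq_zero_iff F := by
    constructor
    · intro h
      have h1 := NN_ge psi psi_le (toE F)
      rw [← norm_def, h] at h1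
      have h2 : ‖toE F‖ = 0 := le_antisymm h1 (norm_nonneg _)
      exact (LinearEquiv.map_eq_zero_iff toE).mp (norm_eq_zero.mp h2)
    · intro h
      subst h
      rw [norm_def, map_zero]
      have h1 := NN_ge psi psi_le (0 : HH)
      have h2 := NN_le psi psi_le (0 : HH)
      rw [norm_zero] at h1 h2
      linarith

noncomputable instance : NormedAddCommGroup V := NormedAddCommGroup.ofCore coreV
noncomputable instance : NormedSpace ℝ V := NormedSpace.ofCore coreV

lemma normV (F : V) : ‖F‖ = NN psi (toE F) := rfl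
lemma toE_le (F : V) : ‖toE F‖ ≤ ‖F‖ := NN_ge psi psi_le (toE F)
lemma le_toE (F : V) : ‖F‖ ≤ 2 * ‖toE F‖ := NN_le psi psi_le (toE F)

instance : CompleteSpace V := by
  apply Metric.complete_of_cauchySeq_tendsto
  intro u hu
  have h1 : CauchySeq (fun n => toE (u n)) := by
    rw [Metric.cauchySeq_iff] at hu ⊢
    intro ε hε
    obtain ⟨N, hN⟩ := hu ε hε
    refine ⟨N, fun m hm n hn => ?_⟩
    have := hN m hm n hn
    rw [dist_eq_norm] at this ⊢
    rw [← map_sub]
    exact lt_of_le_of_lt (toE_le _) this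
  obtain ⟨x, hx⟩ := cauchySeq_tendsto_of_complete h1
  refine ⟨toE.symm x, ?_⟩
  rw [tendsto_iff_norm_sub_tendsto_zero] at hx ⊢
  have h2 := hx.const_mul 2
  rw [mul_zero] at h2
  refine squeeze_zero (fun n => norm_nonneg _) (fun n => ?_) h2
  have := le_toE (u n - toE.symm x)
  rw [map_sub, LinearEquiv.apply_symm_apply] at this
  exact this

lemma V_infdim : ¬ FiniteDimensional ℝ V := by
  intro hfin
  have hli : LinearIndependent ℝ (fun n : ℕ => toE.symm (pt n)) := by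
    rw [linearIndependent_iff']
    intro s g hg i hi
    have h1 := congrArg (fun v : V => ev i (toE v)) hg
    simp only [map_sum, map_smul, LinearEquiv.apply_symm_apply, ev_pt, map_zero, smul_eq_mul, mul_ite, mul_one, mul_zero] at h1
    rw [Finset.sum_ite_eq, if_pos hi] at h1
    exact h1
  have := hli.finite_of_isNoetherian
  exact not_finite ℕ

lemma cz (x y : ℝ) (h : ‖(x - y * Complex.I : ℂ)‖ = 0) : x = 0 ∧ y = 0 := by
  rw [norm_eq_zero] at h
  have h1 := congrArg Complex.re h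
  have h2 := congrArg Complex.im h
  simp at h1 h2
  exact ⟨h1, h2⟩

/-- analytic core -/
lemma core (W0 Y0 X0 : HH) (hW : ‖W0‖ = 1) (hY : ‖Y0‖ = 1) (hWY : inner ℝ W0 Y0 = 0) (hX : ‖X0‖ = 1)
    (H : ∀ θ e : ℝ, NN psi (Real.cos θ • W0 + Real.sin θ • Y0) ≤ NN psi (Real.cos θ • W0 + Real.sin θ • Y0 + e • X0)) : False := by
  have hv : ∀ θ : ℝ, ‖Real.cos θ • W0 + Real.sin θ • Y0‖ = 1 := by
    intro θ
    have h1 : ‖Real.cos θ • W0 + Real.sin θ • Y0‖^2 = 1 := by
      rw [norm_add_sq_real, real_inner_smul_left, real_inner_smul_right, hWY, norm_smul, norm_smul, hW, hY, mul_one, mul_one,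
        Real.norm_eq_abs, Real.norm_eq_abs, sq_abs, sq_abs]
      have := Real.cos_sq_add_sin_sq θ
      linarith
    nlinarith [norm_nonneg (Real.cos θ • W0 + Real.sin θ • Y0)]
  obtain ⟨P, hP⟩ : ∃ P : ℝ, P = inner ℝ W0 X0 := ⟨_, rfl⟩
  obtain ⟨P', hP'⟩ : ∃ P : ℝ, P = inner ℝ Y0 X0 := ⟨_, rfl⟩
  have hin : ∀ θ : ℝ, inner ℝ (Real.cos θ • W0 + Real.sin θ • Y0) X0 = P * Real.cos θ + P' * Real.sin θ := by
    intro θ
    rw [inner_add_left, real_inner_smul_left, real_inner_smul_left, ← hP, ← hP']; ring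
  have hp : ∀ θ : ℝ, |P * Real.cos θ + P' * Real.sin θ| ≤ 1 := by
    intro θ
    rw [← hin]
    have := abs_real_inner_le_norm (Real.cos θ • W0 + Real.sin θ • Y0) X0
    rw [hv, hX, one_mul] at this
    exact this
  have hu : ∀ (k : ℕ) (θ : ℝ), |psi k W0 * Real.cos θ + psi k Y0 * Real.sin θ| ≤ 1 := by
    intro k θ
    have h1 := psi_le k (Real.cos θ • W0 + Real.sin θ • Y0)
    rw [hv, map_add, map_smul, map_smul, smul_eq_mul, smul_eq_mul] at h1
    rw [mul_comm (psi k W0), mul_comm (psi k Y0)]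
    exact h1
  have hc : ∀ k : ℕ, |psi k X0| ≤ 1 := fun k => (psi_le k X0).trans hX.le
  have hnorm : ∀ θ e : ℝ, ‖Real.cos θ • W0 + Real.sin θ • Y0 + e • X0‖ = Real.sqrt (1 + 2*e*(P * Real.cos θ + P' * Real.sin θ) + e^2) := by
    intro θ e
    have h1 : ‖Real.cos θ • W0 + Real.sin θ • Y0 + e • X0‖^2 = 1 + 2*e*(P * Real.cos θ + P' * Real.sin θ) + e^2 := by
      rw [norm_add_sq_real, hv, real_inner_smul_right, hin, norm_smul, hX, mul_one, Real.norm_eq_abs, sq_abs]
      ring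
    rw [← h1, Real.sqrt_sq (norm_nonneg _)]
  have hpsi : ∀ (k : ℕ) (θ e : ℝ), psi k (Real.cos θ • W0 + Real.sin θ • Y0 + e • X0) = (psi k W0 * Real.cos θ + psi k Y0 * Real.sin θ) + e * psi k X0 := by
    intro k θ e
    rw [map_add, map_add, map_smul, map_smul, map_smul, smul_eq_mul, smul_eq_mul, smul_eq_mul]; ring
  have hNN : ∀ θ e : ℝ, NN psi (Real.cos θ • W0 + Real.sin θ • Y0 + e • X0) =
      Real.sqrt (1 + 2*e*(P * Real.cos θ + P' * Real.sin θ) + e^2) + ∑' k, a k * (Real.sqrt (1 + 2*e*(P * Real.cos θ + P' * Real.sin θ) + e^2)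
        * (((psi k W0 * Real.cos θ + psi k Y0 * Real.sin θ) + e * psi k X0) / Real.sqrt (1 + 2*e*(P * Real.cos θ + P' * Real.sin θ) + e^2))^(2*k+2)) := by
    intro θ e
    unfold NN
    simp only [hnorm, hpsi]
  have hid : ∀ θ : ℝ, (P * Real.cos θ + P' * Real.sin θ) + ∑' k, a k * ((2*(k:ℝ)+2) * (psi k X0 * (psi k W0 * Real.cos θ + psi k Y0 * Real.sin θ)^(2*k+1))
      - (2*(k:ℝ)+1) * ((psi k W0 * Real.cos θ + psi k Y0 * Real.sin θ)^(2*k+2) * (P * Real.cos θ + P' * Real.sin θ))) = 0 := by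
    intro θ
    apply deriv_zero (P * Real.cos θ + P' * Real.sin θ) (fun k => psi k W0 * Real.cos θ + psi k Y0 * Real.sin θ) (fun k => psi k X0) (hp θ) hc
    · intro k e
      rw [← hnorm, ← hpsi]
      exact psi_le k _
    · intro e
      rw [← hNN θ 0, ← hNN θ e, zero_smul, add_zero]
      exact H θ e
  have hS1 := stage1 (fun k => psi k W0) (fun k => psi k Y0) (fun k => psi k X0) P P' hc hu hp hid
  have hps : ∀ (s s' j : ℕ), enum j = (s, s') → ∀ l (F : HH), psi (Nat.pair j l) F = 1/2 * (ev s F + ev s' F) := by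
    intro s s' j hj l F
    rw [psi_apply, p1, p2, Nat.unpair_pair, hj]
  have hW0 : W0 ≠ 0 := by
    intro h; rw [h, norm_zero] at hW; exact zero_ne_one hW
  have hX0 : X0 ≠ 0 := by
    intro h; rw [h, norm_zero] at hX; exact zero_ne_one hX
  have hB : ‖(P - P' * Complex.I : ℂ)‖ = 0 := by
    by_contra hB
    apply hW0
    apply ev_ext
    intro n
    rw [map_zero]
    obtain ⟨j, hj⟩ := enum_surj (n, n)
    have h1 := limit_arg ‖(((1/2 * (ev n W0 + ev n W0) : ℝ) : ℂ) - ((1/2 * (ev n Y0 + ev n Y0) : ℝ) : ℂ) * Complex.I : ℂ)‖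
      (‖(((1/2 * (ev n W0 + ev n W0) : ℝ) : ℂ) - ((1/2 * (ev n Y0 + ev n Y0) : ℝ) : ℂ) * Complex.I : ℂ)‖ * ‖(P - P' * Complex.I : ℂ)‖) (by
        intro l
        refine ⟨Nat.pair j l, Nat.right_le_pair j l, ?_⟩
        have := hS1 (Nat.pair j l)
        simp only [hps n n j hj] at this
        rw [abs_mul, abs_norm, abs_norm]
        exact this)
    have h2 : ‖(((1/2 * (ev n W0 + ev n W0) : ℝ) : ℂ) - ((1/2 * (ev n Y0 + ev n Y0) : ℝ) : ℂ) * Complex.I : ℂ)‖ = 0 := by
      rcases h1 with h | h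
      · rcases mul_eq_zero.mp h with h' | h'
        · exact h'
        · exact absurd h' hB
      · exact h
    have h3 := (cz _ _ h2).1
    linarith
  obtain ⟨hP0, hP'0⟩ := cz P P' hB
  have hid2 : ∀ θ : ℝ, ∑' k, a k * ((2*(k:ℝ)+2) * (psi k X0 * (psi k W0 * Real.cos θ + psi k Y0 * Real.sin θ)^(2*k+1))) = 0 := by
    intro θ
    have := hid θ
    simp only [hP0, hP'0, zero_mul, add_zero, mul_zero, sub_zero, zero_add] at this
    exact this
  have hS2 := stage2 (fun k => psi k W0) (fun k => psi k Y0) (fun k => psi k X0) hc hu hid2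
  have hpair : ∀ s s' : ℕ, (ev s X0 + ev s' X0 = 0) ∨ (ev s W0 + ev s' W0 = 0) := by
    intro s s'
    obtain ⟨j, hj⟩ := enum_surj (s, s')
    have h1 := limit_arg ‖(((1/2 * (ev s W0 + ev s' W0) : ℝ) : ℂ) - ((1/2 * (ev s Y0 + ev s' Y0) : ℝ) : ℂ) * Complex.I : ℂ)‖
      (1/2 * (ev s X0 + ev s' X0)) (by
        intro l
        refine ⟨Nat.pair j l, Nat.right_le_pair j l, ?_⟩
        have := hS2 (Nat.pair j l)
        simp only [hps s s' j hj] at this
        rw [abs_norm]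
        exact this)
    rcases h1 with h | h
    · left; linarith
    · right
      have h3 := (cz _ _ h).1
      linarith
  obtain ⟨s, hs⟩ : ∃ s, ev s W0 ≠ 0 := by
    by_contra h; push Not at h
    exact hW0 (ev_ext _ _ (fun n => by rw [h n, map_zero]))
  obtain ⟨s', hs'⟩ : ∃ s, ev s X0 ≠ 0 := by
    by_contra h; push Not at h
    exact hX0 (ev_ext _ _ (fun n => by rw [h n, map_zero]))
  have e1 : ev s X0 = 0 := by
    rcases hpair s s with h | h
    · linarith
    · exact absurd (by linarith) hs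
  have e2 : ev s' W0 = 0 := by
    rcases hpair s' s' with h | h
    · exact absurd (by linarith) hs'
    · linarith
  rcases hpair s s' with h | h
  · rw [e1, zero_add] at h; exact hs' h
  · rw [e2, add_zero] at h; exact hs h

theorem no_strong (G : Submodule ℝ V) (hG : 2 ≤ Module.rank ℝ G) (x : V) (hx : x ≠ 0)
    (H : ∀ g ∈ G, ∀ α : ℝ, ‖g‖ ≤ ‖g + α • x‖) : False := by
  have h1 : 1 < Module.rank ℝ G := lt_of_lt_of_le Cardinal.one_lt_two hG
  have hnt : Nontrivial G := (rank_pos_iff_nontrivial (R := ℝ)).mp (lt_trans zero_lt_one h1)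
  obtain ⟨g1, hg1⟩ := exists_ne (0 : G)
  obtain ⟨g2, hg2⟩ := exists_linearIndependent_pair_of_one_lt_rank h1 hg1
  rw [LinearIndependent.pair_iff] at hg2
  have hG1 : toE (g1 : V) ≠ 0 := by
    intro h
    apply hg1
    have := (LinearEquiv.map_eq_zero_iff toE).mp h
    exact Subtype.ext this
  have hG1p : 0 < ‖toE (g1 : V)‖ := norm_pos_iff.mpr hG1
  obtain ⟨w, hw⟩ : ∃ w : V, w = ‖toE (g1 : V)‖⁻¹ • (g1 : V) := ⟨_, rfl⟩
  have hwG : w ∈ G := by rw [hw]; exact G.smul_mem _ g1.2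
  have hw1 : ‖toE w‖ = 1 := by
    rw [hw, map_smul, norm_smul, norm_inv, norm_norm, inv_mul_cancel₀ hG1p.ne']
  obtain ⟨y1, hy1⟩ : ∃ y : V, y = (g2 : V) - (inner ℝ (toE w) (toE (g2 : V)) : ℝ) • w := ⟨_, rfl⟩
  have hy1G : y1 ∈ G := by rw [hy1]; exact G.sub_mem g2.2 (G.smul_mem _ hwG)
  have hwy1 : inner ℝ (toE w) (toE y1) = (0:ℝ) := by
    rw [hy1, map_sub, map_smul, inner_sub_right, real_inner_smul_right, real_inner_self_eq_norm_sq, hw1]
    ring
  have hy10 : toE y1 ≠ 0 := by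
    intro h
    have h2 : y1 = 0 := (LinearEquiv.map_eq_zero_iff toE).mp h
    rw [hy1, hw, smul_smul] at h2
    have h3 := hg2 (-((inner ℝ (toE (‖toE (g1 : V)‖⁻¹ • (g1 : V))) (toE (g2 : V)) : ℝ) * ‖toE (g1 : V)‖⁻¹)) 1 (by
      apply Subtype.ext
      push_cast
      rw [one_smul, neg_smul, neg_add_eq_sub]
      exact h2)
    exact one_ne_zero h3.2
  have hy1p : 0 < ‖toE y1‖ := norm_pos_iff.mpr hy10
  obtain ⟨y, hy⟩ : ∃ y : V, y = ‖toE y1‖⁻¹ • y1 := ⟨_, rfl⟩
  have hyG : y ∈ G := by rw [hy]; exact G.smul_mem _ hy1G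
  have hyn : ‖toE y‖ = 1 := by
    rw [hy, map_smul, norm_smul, norm_inv, norm_norm, inv_mul_cancel₀ hy1p.ne']
  have hwy : inner ℝ (toE w) (toE y) = (0:ℝ) := by
    rw [hy, map_smul, real_inner_smul_right, hwy1, mul_zero]
  have hx0 : toE x ≠ 0 := fun h => hx ((LinearEquiv.map_eq_zero_iff toE).mp h)
  have hxp : 0 < ‖toE x‖ := norm_pos_iff.mpr hx0
  have hxn : ‖‖toE x‖⁻¹ • toE x‖ = 1 := by
    rw [norm_smul, norm_inv, norm_norm, inv_mul_cancel₀ hxp.ne']
  apply core (toE w) (toE y) (‖toE x‖⁻¹ • toE x) hw1 hyn hwy hxn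
  intro θ e
  have h2 := H (Real.cos θ • w + Real.sin θ • y) (G.add_mem (G.smul_mem _ hwG) (G.smul_mem _ hyG)) (e * ‖toE x‖⁻¹)
  rw [normV, normV, map_add, map_add, map_smul, map_smul, map_add, map_smul, map_smul, map_smul, mul_smul] at h2
  exact h2

end Pool.Agent.H915.Strong
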